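import Mathlib

/-!
# A Selberg-type upper bound sieve via orthonormal local functions

`P` is a finite set of primes, `Ω p ⊆ {0, ..., p-1}` the set of forbidden residues modulo `p`.
We bound the number of `n < N` whose residue modulo `p` is not in `Ω p` for all `p ∈ P`.
-/

set_option autoImplicit false

open Finset

namespace Pool.Agent.Lib.Sieve4

/-- `h p = |Ω p| / (p - |Ω p|)`. -/
noncomputable def hh (Ω : ℕ → Finset ℕ) (p : ℕ) : ℝ := ((Ω p).card : ℝ) / ((p : ℝ) - (Ω p).card)

/-- the local function. -/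
noncomputable def gg (Ω : ℕ → Finset ℕ) (p : ℕ) (n : ℕ) : ℝ :=
  if n % p ∈ Ω p then -1 else hh Ω p

/-- The sum over one period factors (Chinese remainder theorem), two factors. -/
lemma sum_range_mul_crt (p M : ℕ) (hp : 0 < p) (hM : 0 < M) (hco : Nat.Coprime p M)
    (F G : ℕ → ℝ) :
    ∑ n ∈ range (p * M), F (n % p) * G (n % M) = (∑ a ∈ range p, F a) * ∑ b ∈ range M, G b := by
  rw [Finset.sum_mul_sum, ← Finset.sum_product']
  refine Finset.sum_bij (fun n _ => (n % p, n % M)) ?_ ?_ ?_ ?_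
  · intro n _
    simp only [mem_product, mem_range]
    exact ⟨Nat.mod_lt _ hp, Nat.mod_lt _ hM⟩
  · intro a ha b hb hab
    simp only [Prod.mk.injEq] at hab
    simp only [mem_range] at ha hb
    have h := (Nat.modEq_and_modEq_iff_modEq_mul hco).1 ⟨hab.1, hab.2⟩
    exact Nat.ModEq.eq_of_lt_of_lt h ha hb
  · rintro ⟨a, b⟩ hab
    simp only [mem_product, mem_range] at hab
    obtain ⟨k, hk1, hk2⟩ := Nat.chineseRemainder hco a b
    refine ⟨k % (p * M), ?_, ?_⟩
    · simp only [mem_range]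
      exact Nat.mod_lt _ (Nat.mul_pos hp hM)
    · have h1 : k % p = a := by
        rw [hk1]; exact Nat.mod_eq_of_lt hab.1
      have h2 : k % M = b := by
        rw [hk2]; exact Nat.mod_eq_of_lt hab.2
      simp only [Prod.mk.injEq]
      constructor
      · rw [Nat.mod_mul_right_mod]; exact h1
      · rw [Nat.mod_mul_left_mod]; exact h2
  · intro n _
    rfl

/-- The sum over one period of a product of local functions. -/
lemma sum_range_prod_crt (s : Finset ℕ) (hs : ∀ p ∈ s, p.Prime) (F : ℕ → ℕ → ℝ) :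
    ∑ n ∈ range (∏ p ∈ s, p), ∏ p ∈ s, F p (n % p) = ∏ p ∈ s, ∑ a ∈ range p, F p a := by
  induction s using Finset.induction_on with
  | empty => simp
  | insert q s hq ih =>
    have hs' : ∀ p ∈ s, p.Prime := fun p hp => hs p (mem_insert_of_mem hp)
    have hqp := hs q (mem_insert_self _ _)
    rw [prod_insert hq, prod_insert hq, ← ih hs']
    have hco : Nat.Coprime q (∏ p ∈ s, p) := by
      apply Nat.Coprime.prod_right
      intro p hp
      rw [Nat.coprime_primes hqp (hs' p hp)]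
      rintro rfl
      exact hq hp
    have hpos : 0 < ∏ p ∈ s, p := Finset.prod_pos fun p hp => (hs' p hp).pos
    rw [← sum_range_mul_crt q _ hqp.pos hpos hco (F q) (fun m => ∏ p ∈ s, F p (m % p))]
    refine Finset.sum_congr rfl fun n _ => ?_
    rw [prod_insert hq]
    congr 1
    refine Finset.prod_congr rfl fun p hp => ?_
    rw [Nat.mod_mod_of_dvd _ (Finset.dvd_prod_of_mem _ hp)]

/-- Bound for an incomplete sum of a periodic function. -/
lemma sum_range_le_of_periodic (M : ℕ) (hM : 0 < M) (F : ℕ → ℝ) (hF : ∀ n, F (n % M) = F n)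
    (B : ℝ) (hB : ∀ n, |F n| ≤ B) (hPS : 0 ≤ ∑ n ∈ range M, F n) (N : ℕ) :
    ∑ n ∈ range N, F n ≤ (N / M : ℝ) * ∑ n ∈ range M, F n + M * B := by
  have hB0 : 0 ≤ B := (abs_nonneg _).trans (hB 0)
  have hper : ∀ k, ∑ n ∈ range (M * k), F n = k * ∑ n ∈ range M, F n := by
    intro k
    induction k with
    | zero => simp
    | succ k ih =>
      rw [Nat.mul_succ, Finset.sum_range_add, ih]
      push_cast
      have : ∑ x ∈ range M, F (M * k + x) = ∑ n ∈ range M, F n := by
        refine Finset.sum_congr rfl fun x hx => ?_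
        rw [← hF (M * k + x), Nat.mul_add_mod, hF]
      rw [this]; ring
  have hN : N = M * (N / M) + N % M := (Nat.div_add_mod N M).symm
  have h1 : ∑ n ∈ range N, F n = (N / M : ℕ) * ∑ n ∈ range M, F n +
      ∑ x ∈ range (N % M), F (M * (N / M) + x) := by
    conv_lhs => rw [hN]
    rw [Finset.sum_range_add, hper]
  have h2 : ∑ x ∈ range (N % M), F (M * (N / M) + x) ≤ M * B := by
    calc ∑ x ∈ range (N % M), F (M * (N / M) + x) ≤ ∑ x ∈ range (N % M), B :=
          Finset.sum_le_sum fun x _ => (le_abs_self _).trans (hB _)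
      _ = (N % M : ℕ) * B := by simp
      _ ≤ M * B := by
          apply mul_le_mul_of_nonneg_right _ hB0
          exact_mod_cast (Nat.mod_lt N hM).le
  have h3 : ((N / M : ℕ) : ℝ) ≤ (N : ℝ) / M := Nat.cast_div_le
  rw [h1]
  have := mul_le_mul_of_nonneg_right h3 hPS
  linarith

section local_computations

variable (Ω : ℕ → Finset ℕ)

lemma sum_gg (p : ℕ) (_hp : p.Prime) (hΩ : Ω p ⊆ range p) (hlt : (Ω p).card < p) :
    ∑ a ∈ range p, gg Ω p a = 0 := by
  have h0 : ∀ a ∈ range p, gg Ω p a = if a ∈ Ω p then -1 else hh Ω p := by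
    intro a ha
    rw [mem_range] at ha
    rw [gg, Nat.mod_eq_of_lt ha]
  rw [Finset.sum_congr rfl h0, Finset.sum_ite, Finset.sum_const, Finset.sum_const]
  have h1 : (range p).filter (fun a => a ∈ Ω p) = Ω p := by
    ext a; simp only [mem_filter, and_iff_right_iff_imp]; exact fun h => hΩ h
  have h2 : ((range p).filter (fun a => a ∉ Ω p)).card = p - (Ω p).card := by
    have : (range p).filter (fun a => a ∉ Ω p) = range p \ Ω p := by
      ext a; simp
    rw [this, Finset.card_sdiff_of_subset hΩ, card_range]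
  rw [h1, h2]
  have h3 : (0 : ℝ) < (p : ℝ) - (Ω p).card := by
    have : ((Ω p).card : ℝ) < p := by exact_mod_cast hlt
    linarith
  simp only [nsmul_eq_mul, Nat.cast_sub hlt.le, hh]
  field_simp
  ring

lemma sum_gg_sq (p : ℕ) (_hp : p.Prime) (hΩ : Ω p ⊆ range p) (hlt : (Ω p).card < p) :
    ∑ a ∈ range p, gg Ω p a * gg Ω p a = p * hh Ω p := by
  have h0 : ∀ a ∈ range p, gg Ω p a * gg Ω p a = if a ∈ Ω p then 1 else hh Ω p * hh Ω p := by
    intro a ha
    rw [mem_range] at ha
    rw [gg, Nat.mod_eq_of_lt ha]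
    split_ifs <;> norm_num
  rw [Finset.sum_congr rfl h0, Finset.sum_ite, Finset.sum_const, Finset.sum_const]
  have h1 : (range p).filter (fun a => a ∈ Ω p) = Ω p := by
    ext a; simp only [mem_filter, and_iff_right_iff_imp]; exact fun h => hΩ h
  have h2 : ((range p).filter (fun a => a ∉ Ω p)).card = p - (Ω p).card := by
    have : (range p).filter (fun a => a ∉ Ω p) = range p \ Ω p := by
      ext a; simp
    rw [this, Finset.card_sdiff_of_subset hΩ, card_range]
  rw [h1, h2]
  have h3 : (0 : ℝ) < (p : ℝ) - (Ω p).card := by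
    have : ((Ω p).card : ℝ) < p := by exact_mod_cast hlt
    linarith
  simp only [nsmul_eq_mul, Nat.cast_sub hlt.le, hh]
  field_simp
  ring

lemma hh_nonneg (p : ℕ) (hlt : (Ω p).card < p) : 0 ≤ hh Ω p := by
  have h3 : (0 : ℝ) < (p : ℝ) - (Ω p).card := by
    have : ((Ω p).card : ℝ) < p := by exact_mod_cast hlt
    linarith
  exact div_nonneg (Nat.cast_nonneg _) h3.le

/-- Orthogonality over a common period. -/
lemma orthogonality (s t : Finset ℕ) (hs : ∀ p ∈ s, p.Prime) (ht : ∀ p ∈ t, p.Prime)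
    (hΩs : ∀ p ∈ s ∪ t, Ω p ⊆ range p) (hlt : ∀ p ∈ s ∪ t, (Ω p).card < p) :
    ∑ n ∈ range (∏ p ∈ s ∪ t, p), (∏ p ∈ s, gg Ω p n) * (∏ p ∈ t, gg Ω p n) =
      if s = t then (∏ p ∈ s ∪ t, (p : ℝ)) * ∏ p ∈ s, hh Ω p else 0 := by
  have hst : ∀ p ∈ s ∪ t, p.Prime := by
    intro p hp
    rcases mem_union.1 hp with h | h
    exacts [hs p h, ht p h]
  have hggmod : ∀ p n, gg Ω p (n % p) = gg Ω p n := by
    intro p n; simp [gg]
  set F : ℕ → ℕ → ℝ := fun p n =>
    (if p ∈ s then gg Ω p n else 1) * (if p ∈ t then gg Ω p n else 1) with hF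
  have h1 : ∀ n, (∏ p ∈ s, gg Ω p n) * (∏ p ∈ t, gg Ω p n) = ∏ p ∈ s ∪ t, F p (n % p) := by
    intro n
    rw [hF]
    simp only [hggmod]
    rw [Finset.prod_mul_distrib]
    congr 1
    · rw [Finset.prod_ite_mem, Finset.union_inter_cancel_left]
    · rw [Finset.prod_ite_mem, Finset.union_inter_cancel_right]
  simp only [h1]
  rw [sum_range_prod_crt _ hst]
  split_ifs with hcase
  · subst hcase
    rw [Finset.union_self] at *
    rw [← Finset.prod_mul_distrib]
    refine Finset.prod_congr rfl fun p hp => ?_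
    simp only [hF, hp, if_true]
    exact sum_gg_sq Ω p (hs p hp) (hΩs p hp) (hlt p hp)
  · -- some prime in exactly one of them
    have hex : ∃ p ∈ s ∪ t, (p ∈ s ∧ p ∉ t) ∨ (p ∉ s ∧ p ∈ t) := by
      by_contra hcon
      push Not at hcon
      apply hcase
      ext p
      constructor
      · intro hp
        exact (hcon p (mem_union_left _ hp)).1 hp
      · intro hp
        by_contra hp'
        exact (hcon p (mem_union_right _ hp)).2 hp' hp
    obtain ⟨p, hp, hcase'⟩ := hex
    refine Finset.prod_eq_zero hp ?_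
    rcases hcase' with ⟨h1, h2⟩ | ⟨h1, h2⟩
    · simp only [hF, h1, h2, if_true, if_false, mul_one]
      exact sum_gg Ω p (hst p hp) (hΩs p hp) (hlt p hp)
    · simp only [hF, h1, h2, if_true, if_false, one_mul]
      exact sum_gg Ω p (hst p hp) (hΩs p hp) (hlt p hp)

end local_computations

/-- The truncated set of squarefree moduli (as sets of primes). -/
def DD (P : Finset ℕ) (R : ℕ) : Finset (Finset ℕ) := P.powerset.filter (fun s => ∏ p ∈ s, p ≤ R)

/-- The Selberg denominator. -/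
noncomputable def GG (P : Finset ℕ) (Ω : ℕ → Finset ℕ) (R : ℕ) : ℝ :=
  ∑ s ∈ DD P R, ∏ p ∈ s, hh Ω p

lemma card_DD_le (P : Finset ℕ) (hP : ∀ p ∈ P, p.Prime) (R : ℕ) : (DD P R).card ≤ R := by
  classical
  have : (DD P R).card ≤ (Finset.Icc 1 R).card := by
    refine Finset.card_le_card_of_injOn (fun s => ∏ p ∈ s, p) ?_ ?_
    · intro s hs
      have hs' := hs
      simp only [DD, coe_filter, mem_powerset, Set.mem_ofPred_eq] at hs'
      simp only [coe_Icc, Set.mem_Icc]
      exact ⟨Finset.prod_pos fun p hp => (hP p (hs'.1 hp)).pos, hs'.2⟩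
    · intro s hs t ht hst
      simp only [DD, coe_filter, mem_powerset, Set.mem_ofPred_eq] at hs ht
      have h1 := Nat.primeFactors_prod (s := s) (fun p hp => hP p (hs.1 hp))
      have h2 := Nat.primeFactors_prod (s := t) (fun p hp => hP p (ht.1 hp))
      simp only at hst
      rw [← h1, ← h2, hst]
  simpa using this

/-- The Selberg-type bound. -/
theorem sieve_bound (P : Finset ℕ) (hP : ∀ p ∈ P, p.Prime) (Ω : ℕ → Finset ℕ)
    (hΩ : ∀ p ∈ P, Ω p ⊆ range p) (hlt : ∀ p ∈ P, (Ω p).card < p) (L : ℕ)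
    (hL : ∀ p ∈ P, hh Ω p ≤ 2 ^ L) (R : ℕ) (hR : 1 ≤ R) (N : ℕ) :
    (((range N).filter (fun n => ∀ p ∈ P, n % p ∉ Ω p)).card : ℝ) ≤
      N / GG P Ω R + (R : ℝ) ^ (2 * L + 4) := by
  classical
  set D := DD P R with hD
  set G := GG P Ω R with hG
  have hsub : ∀ s ∈ D, s ⊆ P := fun s hs => by
    simp only [hD, DD, mem_filter, mem_powerset] at hs; exact hs.1
  have hprod : ∀ s ∈ D, ∏ p ∈ s, p ≤ R := fun s hs => by
    simp only [hD, DD, mem_filter, mem_powerset] at hs; exact hs.2
  have hhnn : ∀ s ∈ D, 0 ≤ ∏ p ∈ s, hh Ω p := fun s hs =>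
    Finset.prod_nonneg fun p hp => hh_nonneg Ω p (hlt p (hsub s hs hp))
  have hempty : (∅ : Finset ℕ) ∈ D := by
    simp [hD, DD, hR]
  have hG1 : 1 ≤ G := by
    have := Finset.single_le_sum hhnn hempty
    simpa [hG, GG] using this
  set f : ℕ → ℝ := fun n => (∑ s ∈ D, ∏ p ∈ s, gg Ω p n) / G with hf
  -- lower bound of the count by the sum of f^2
  have h1 : (((range N).filter (fun n => ∀ p ∈ P, n % p ∉ Ω p)).card : ℝ) ≤
      ∑ n ∈ range N, f n ^ 2 := by
    rw [Finset.card_filter]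
    push_cast
    refine Finset.sum_le_sum fun n _ => ?_
    split_ifs with h
    · have : f n = 1 := by
        rw [hf]
        simp only
        rw [div_eq_one_iff_eq (by linarith)]
        rw [hG, GG]
        refine Finset.sum_congr rfl fun s hs => Finset.prod_congr rfl fun p hp => ?_
        rw [gg, if_neg (h p (hsub s hs hp))]
      rw [this]; norm_num
    · positivity
  -- expand
  have h2 : ∑ n ∈ range N, f n ^ 2 =
      (∑ s ∈ D, ∑ t ∈ D, ∑ n ∈ range N, (∏ p ∈ s, gg Ω p n) * (∏ p ∈ t, gg Ω p n)) / G ^ 2 := by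
    have : ∀ n, f n ^ 2 = (∑ s ∈ D, ∑ t ∈ D, (∏ p ∈ s, gg Ω p n) * (∏ p ∈ t, gg Ω p n)) / G ^ 2 := by
      intro n
      rw [hf]
      simp only
      rw [div_pow, sq (∑ s ∈ D, ∏ p ∈ s, gg Ω p n), Finset.sum_mul_sum]
    simp only [this]
    rw [← Finset.sum_div]
    congr 1
    rw [Finset.sum_comm]
    refine Finset.sum_congr rfl fun s _ => ?_
    rw [Finset.sum_comm]
  -- bound each product
  have habs : ∀ s ∈ D, ∀ n, |∏ p ∈ s, gg Ω p n| ≤ (R : ℝ) ^ L := by
    intro s hs n
    rw [Finset.abs_prod]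
    calc ∏ p ∈ s, |gg Ω p n| ≤ ∏ p ∈ s, (2 : ℝ) ^ L := by
          refine Finset.prod_le_prod (fun _ _ => abs_nonneg _) fun p hp => ?_
          have hpP := hsub s hs hp
          rw [gg]
          split_ifs
          · rw [abs_neg, abs_one]; exact one_le_pow₀ (by norm_num)
          · rw [abs_of_nonneg (hh_nonneg Ω p (hlt p hpP))]; exact hL p hpP
      _ ≤ ∏ p ∈ s, (p : ℝ) ^ L := by
          refine Finset.prod_le_prod (fun _ _ => by positivity) fun p hp => ?_
          have := (hP p (hsub s hs hp)).two_le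
          have h2 : (2 : ℝ) ≤ p := by exact_mod_cast this
          exact pow_le_pow_left₀ (by norm_num) h2 L
      _ = ((∏ p ∈ s, p : ℕ) : ℝ) ^ L := by
          rw [Finset.prod_pow]; push_cast; rfl
      _ ≤ (R : ℝ) ^ L := by
          apply pow_le_pow_left₀ (by positivity)
          exact_mod_cast hprod s hs
  have hterm : ∀ s ∈ D, ∀ t ∈ D,
      ∑ n ∈ range N, (∏ p ∈ s, gg Ω p n) * (∏ p ∈ t, gg Ω p n) ≤
        (if s = t then N * ∏ p ∈ s, hh Ω p else 0) + (R : ℝ) ^ (2 * L + 2) := by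
    intro s hs t ht
    have hsP := hsub s hs
    have htP := hsub t ht
    have hst : ∀ p ∈ s ∪ t, p ∈ P := by
      intro p hp
      rcases mem_union.1 hp with h | h
      exacts [hsP h, htP h]
    set M := ∏ p ∈ s ∪ t, p with hM
    have hMpos : 0 < M := Finset.prod_pos fun p hp => (hP p (hst p hp)).pos
    have horth := orthogonality Ω s t (fun p hp => hP p (hsP hp)) (fun p hp => hP p (htP hp))
      (fun p hp => hΩ p (hst p hp)) (fun p hp => hlt p (hst p hp))
    have hPS : 0 ≤ ∑ n ∈ range M, (∏ p ∈ s, gg Ω p n) * (∏ p ∈ t, gg Ω p n) := by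
      rw [horth]
      split_ifs
      · have := hhnn s hs
        positivity
      · exact le_rfl
    have hgmod : ∀ p ∈ s ∪ t, ∀ n, gg Ω p (n % M) = gg Ω p n := by
      intro p hp n
      simp only [gg]
      rw [Nat.mod_mod_of_dvd _ (Finset.dvd_prod_of_mem _ hp)]
    have hmain := sum_range_le_of_periodic M hMpos
      (fun n => (∏ p ∈ s, gg Ω p n) * (∏ p ∈ t, gg Ω p n))
      (by
        intro n
        congr 1
        · exact Finset.prod_congr rfl fun p hp => hgmod p (mem_union_left _ hp) n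
        · exact Finset.prod_congr rfl fun p hp => hgmod p (mem_union_right _ hp) n)
      ((R : ℝ) ^ L * (R : ℝ) ^ L)
      (by
        intro n
        rw [abs_mul]
        exact mul_le_mul (habs s hs n) (habs t ht n) (abs_nonneg _) (by positivity))
      hPS N
    have hMR : (M : ℝ) ≤ (R : ℝ) ^ 2 := by
      have h1 : M ≤ (∏ p ∈ s, p) * ∏ p ∈ t, p := by
        rw [hM, ← Finset.prod_union_inter]
        apply Nat.le_mul_of_pos_right
        exact Finset.prod_pos fun p hp => (hP p (hsP (mem_inter.1 hp).1)).pos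
      have h2 : (∏ p ∈ s, p) * ∏ p ∈ t, p ≤ R * R := Nat.mul_le_mul (hprod s hs) (hprod t ht)
      have h3 : M ≤ R * R := h1.trans h2
      rw [sq]
      exact_mod_cast h3
    refine hmain.trans ?_
    rw [horth]
    have hMcast : (∏ p ∈ s ∪ t, (p : ℝ)) = (M : ℝ) := by rw [hM]; push_cast; rfl
    rw [hMcast]
    have hMpos' : (0 : ℝ) < M := by exact_mod_cast hMpos
    apply add_le_add
    · split_ifs
      · apply le_of_eq; field_simp
      · simp
    · calc (M : ℝ) * ((R : ℝ) ^ L * (R : ℝ) ^ L) ≤ (R : ℝ) ^ 2 * ((R : ℝ) ^ L * (R : ℝ) ^ L) :=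
            mul_le_mul_of_nonneg_right hMR (by positivity)
        _ = (R : ℝ) ^ (2 * L + 2) := by ring
  have hcard : (D.card : ℝ) ≤ R := by exact_mod_cast card_DD_le P hP R
  have hsum : ∑ s ∈ D, ∑ t ∈ D, ∑ n ∈ range N, (∏ p ∈ s, gg Ω p n) * (∏ p ∈ t, gg Ω p n) ≤
      N * G + (R : ℝ) ^ (2 * L + 4) := by
    calc _ ≤ ∑ s ∈ D, ∑ t ∈ D,
            ((if s = t then N * ∏ p ∈ s, hh Ω p else 0) + (R : ℝ) ^ (2 * L + 2)) :=
          Finset.sum_le_sum fun s hs => Finset.sum_le_sum fun t ht => hterm s hs t ht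
      _ = N * G + (D.card : ℝ) * ((D.card : ℝ) * (R : ℝ) ^ (2 * L + 2)) := by
          simp only [Finset.sum_add_distrib, Finset.sum_const, nsmul_eq_mul]
          congr 1
          rw [hG, GG, Finset.mul_sum]
          refine Finset.sum_congr rfl fun s hs => ?_
          rw [Finset.sum_ite_eq, if_pos hs]
      _ ≤ N * G + (R : ℝ) * ((R : ℝ) * (R : ℝ) ^ (2 * L + 2)) := by
          gcongr
      _ = N * G + (R : ℝ) ^ (2 * L + 4) := by ring
  have hG0 : 0 < G := by linarith
  calc _ ≤ ∑ n ∈ range N, f n ^ 2 := h1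
    _ = _ := h2
    _ ≤ (N * G + (R : ℝ) ^ (2 * L + 4)) / G ^ 2 := by gcongr
    _ = N / G + (R : ℝ) ^ (2 * L + 4) / G ^ 2 := by field_simp
    _ ≤ N / G + (R : ℝ) ^ (2 * L + 4) := by
        gcongr
        apply div_le_self (by positivity)
        exact one_le_pow₀ hG1

end Pool.Agent.Lib.Sieve4
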