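import Mathlib

/-!
# Prime tuples: the number of occupied classes and the local factors of the singular series
-/

set_option autoImplicit false

open Finset Real

namespace Pool.Agent.Lib.Sieve4

/-- number of residue classes modulo `p` occupied by the shifts. -/
def nu {r : ℕ} (a : Fin r → ℤ) (p : ℕ) : ℕ := (Finset.univ.image (fun i => ((a i : ℤ) : ZMod p))).card

/-- the forbidden residues for `n` modulo `p`. -/
def Om {r : ℕ} (a : Fin r → ℤ) (p : ℕ) : Finset ℕ :=
  (Finset.univ.image (fun i => ((a i : ℤ) : ZMod p))).image (fun c => (-c).val)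

/-- local factor of the singular series. -/
noncomputable def loc {r : ℕ} (a : Fin r → ℤ) (p : ℕ) : ℝ :=
  (1 - (nu a p : ℝ) / (p : ℝ)) * ((1 - 1 / (p : ℝ))⁻¹) ^ r

lemma nu_le {r : ℕ} (a : Fin r → ℤ) (p : ℕ) : nu a p ≤ r := by
  have := Finset.card_image_le (s := (Finset.univ : Finset (Fin r)))
    (f := fun i => ((a i : ℤ) : ZMod p))
  simpa [nu] using this

lemma card_Om {r : ℕ} (a : Fin r → ℤ) (p : ℕ) (hp : p.Prime) : (Om a p).card = nu a p := by
  have : NeZero p := ⟨hp.ne_zero⟩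
  rw [Om, Finset.card_image_of_injective, nu]
  intro c d h
  have := ZMod.val_injective p h
  exact neg_injective this

lemma Om_subset {r : ℕ} (a : Fin r → ℤ) (p : ℕ) (hp : p.Prime) : Om a p ⊆ range p := by
  have : NeZero p := ⟨hp.ne_zero⟩
  intro m hm
  simp only [Om, mem_image, mem_univ, true_and, exists_exists_eq_and] at hm
  obtain ⟨i, rfl⟩ := hm
  rw [mem_range]
  exact ZMod.val_lt _

lemma mem_Om {r : ℕ} (a : Fin r → ℤ) (p : ℕ) (hp : p.Prime) (n : ℕ) :
    n % p ∈ Om a p ↔ ∃ i, (p : ℤ) ∣ n + a i := by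
  have : NeZero p := ⟨hp.ne_zero⟩
  simp only [Om, mem_image, mem_univ, true_and, exists_exists_eq_and]
  refine exists_congr fun i => ?_
  rw [← ZMod.intCast_zmod_eq_zero_iff_dvd]
  push_cast
  constructor
  · intro h
    have h1 : (((-(a i : ZMod p)).val : ℕ) : ZMod p) = ((n % p : ℕ) : ZMod p) := by rw [h]
    rw [ZMod.natCast_zmod_val, ZMod.natCast_mod] at h1
    rw [← h1]; ring
  · intro h
    have h1 : (-(a i : ZMod p)) = (n : ZMod p) := by
      rw [neg_eq_iff_add_eq_zero, add_comm]; exact h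
    rw [h1, ZMod.val_natCast]

lemma nu_pos {r : ℕ} (hr : 1 ≤ r) (a : Fin r → ℤ) (p : ℕ) : 1 ≤ nu a p := by
  rw [nu, Nat.one_le_iff_ne_zero, Finset.card_ne_zero]
  exact ⟨_, Finset.mem_image_of_mem _ (Finset.mem_univ ⟨0, hr⟩)⟩

lemma loc_pos {r : ℕ} (a : Fin r → ℤ) (p : ℕ) (hp : p.Prime) (hadm : nu a p < p) :
    0 < loc a p := by
  have hp0 : (0 : ℝ) < p := by exact_mod_cast hp.pos
  have hp1 : (1 : ℝ) < p := by exact_mod_cast hp.one_lt
  have h1 : (nu a p : ℝ) / p < 1 := by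
    rw [div_lt_one hp0]; exact_mod_cast hadm
  have h2 : 1 / (p : ℝ) < 1 := by rw [div_lt_one hp0]; exact hp1
  rw [loc]
  apply mul_pos (by linarith)
  apply pow_pos
  exact inv_pos.2 (by linarith)

/-- `(1 - 1/p)⁻¹ ^ r ≥ 1 + r / p`. -/
lemma one_add_le_inv_pow (r p : ℕ) (hp : p.Prime) :
    1 + (r : ℝ) / p ≤ ((1 - 1 / (p : ℝ))⁻¹) ^ r := by
  have hp0 : (0 : ℝ) < p := by exact_mod_cast hp.pos
  have hp1 : (1 : ℝ) < p := by exact_mod_cast hp.one_lt
  have h2 : 1 / (p : ℝ) < 1 := by rw [div_lt_one hp0]; exact hp1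
  have h3 : 1 + 1 / (p : ℝ) ≤ (1 - 1 / (p : ℝ))⁻¹ := by
    rw [le_inv_comm₀ (by positivity) (by linarith)]
    rw [inv_eq_one_div, le_div_iff₀ (by positivity)]
    have : 0 ≤ (1 / (p : ℝ)) ^ 2 := by positivity
    nlinarith
  calc 1 + (r : ℝ) / p = 1 + r * (1 / p) := by ring
    _ ≤ (1 + 1 / (p : ℝ)) ^ r := by
        have := one_add_mul_le_pow (a := 1 / (p : ℝ)) (by
          have : 0 ≤ 1 / (p : ℝ) := by positivity
          linarith) r
        simpa using this
    _ ≤ _ := pow_le_pow_left₀ (by positivity) h3 r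

end Pool.Agent.Lib.Sieve4
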