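import Pool.Agent.Lib.Sieve4.Main
import Pool.Agent.Lib.Sieve4.TupleDefs

/-!
# Upper bound for prime tuples, uniform in the shifts, with the full singular series
-/

set_option autoImplicit false

open Finset Real

namespace Pool.Agent.Lib.Sieve4

/-- The sieve bound for prime tuples before the choice of `z`. -/
lemma tuple_sieve {r : ℕ} (a : Fin r → ℤ) (hadm : ∀ p : ℕ, p.Prime → nu a p < p) (z : ℕ)
    (hz : 2 ≤ z) (x : ℕ) :
    (((Icc 1 x).filter (fun n : ℕ => ∀ i, Nat.Prime ((n : ℤ) + a i).toNat)).card : ℝ) ≤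
      2 * (x + 1) * (∏ p ∈ Nat.primesLE z, (1 - (nu a p : ℝ) / p)) +
        (z : ℝ) ^ ((6 * r + 1) * (2 * r + 4)) + r * z := by
  classical
  have hPp : ∀ p ∈ Nat.primesLE z, p.Prime := fun p hp => (Nat.mem_primesLE.1 hp).2
  have h1 := upper_sieve (Nat.primesLE z) z hz hPp (fun p hp => (Nat.mem_primesLE.1 hp).1)
    (Om a) (fun p hp => Om_subset a p (hPp p hp))
    (fun p hp => by rw [card_Om a p (hPp p hp)]; exact hadm p (hPp p hp)) r
    (fun p hp => by rw [card_Om a p (hPp p hp)]; exact nu_le a p) (x + 1)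
  have h2 : ∏ p ∈ Nat.primesLE z, (1 - ((Om a p).card : ℝ) / p) =
      ∏ p ∈ Nat.primesLE z, (1 - (nu a p : ℝ) / p) :=
    Finset.prod_congr rfl fun p hp => by rw [card_Om a p (hPp p hp)]
  rw [h2] at h1
  set A := (range (x + 1)).filter (fun n => ∀ p ∈ Nat.primesLE z, n % p ∉ Om a p) with hA
  set B := (Icc 1 x).filter (fun n : ℕ => ∀ i, Nat.Prime ((n : ℤ) + a i).toNat) with hB
  set C := (Finset.univ : Finset (Fin r)).biUnion
    (fun i => (Icc 1 z).image (fun m : ℕ => ((m : ℤ) - a i).toNat)) with hC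
  have hsub : B ⊆ A ∪ C := by
    intro n hn
    simp only [hB, mem_filter, mem_Icc] at hn
    obtain ⟨⟨hn1, hn2⟩, hn3⟩ := hn
    by_cases hex : ∃ i, ((n : ℤ) + a i).toNat ≤ z
    · obtain ⟨i, hi⟩ := hex
      apply mem_union_right
      simp only [hC, mem_biUnion, mem_univ, true_and, mem_image, mem_Icc]
      have := (hn3 i).two_le
      refine ⟨i, ((n : ℤ) + a i).toNat, ⟨by omega, hi⟩, by omega⟩
    · push Not at hex
      apply mem_union_left
      simp only [hA, mem_filter, mem_range]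
      refine ⟨by omega, fun p hp hmem => ?_⟩
      rw [mem_Om a p (hPp p hp)] at hmem
      obtain ⟨i, hi⟩ := hmem
      have h3 := hn3 i
      have h4 := h3.two_le
      have h5 : (p : ℤ) ∣ (((n : ℤ) + a i).toNat : ℤ) := by
        rw [Int.toNat_of_nonneg (by omega)]; exact hi
      have h6 : p ∣ ((n : ℤ) + a i).toNat := by exact_mod_cast h5
      rcases (Nat.dvd_prime h3).1 h6 with h | h
      · have := (hPp p hp).two_le; omega
      · have := (Nat.mem_primesLE.1 hp).1
        have := hex i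
        omega
  have hCcard : (C.card : ℝ) ≤ r * z := by
    have h3 : C.card ≤ ∑ i : Fin r, ((Icc 1 z).image (fun m : ℕ => ((m : ℤ) - a i).toNat)).card :=
      Finset.card_biUnion_le
    have h4 : ∑ i : Fin r, ((Icc 1 z).image (fun m : ℕ => ((m : ℤ) - a i).toNat)).card ≤
        ∑ i : Fin r, z := Finset.sum_le_sum fun i _ => by
      have := Finset.card_image_le (s := Icc 1 z) (f := fun m : ℕ => ((m : ℤ) - a i).toNat)
      simpa using this
    have h5 : C.card ≤ r * z := by
      refine h3.trans (h4.trans ?_)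
      simp
    exact_mod_cast h5
  have hcard : (B.card : ℝ) ≤ A.card + C.card := by
    have := (Finset.card_le_card hsub).trans (Finset.card_union_le A C)
    exact_mod_cast this
  push_cast at h1
  linarith

lemma loc_ge_of_le {r : ℕ} (a : Fin r → ℤ) (p : ℕ) (hp : p.Prime) (hadm : nu a p < p)
    (hpr : p ≤ r) : 1 / (r : ℝ) ≤ loc a p := by
  have hp0 : (0 : ℝ) < p := by exact_mod_cast hp.pos
  have h1 : 1 / (p : ℝ) ≤ 1 - (nu a p : ℝ) / p := by
    have h2 : (nu a p : ℝ) + 1 ≤ p := by exact_mod_cast hadm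
    have h3 : 1 - (nu a p : ℝ) / p = (p - nu a p) / p := by field_simp
    rw [h3]
    gcongr
    linarith
  have h2 : 1 ≤ ((1 - 1 / (p : ℝ))⁻¹) ^ r := by
    have := one_add_le_inv_pow r p hp
    have h3 : 0 ≤ (r : ℝ) / p := by positivity
    linarith
  calc 1 / (r : ℝ) ≤ 1 / p := by
        apply one_div_le_one_div_of_le hp0
        exact_mod_cast hpr
    _ = 1 / p * 1 := (mul_one _).symm
    _ ≤ loc a p := by
        rw [loc]
        exact mul_le_mul h1 h2 (by norm_num) (le_trans (by positivity) h1)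

lemma loc_ge_of_gt {r : ℕ} (a : Fin r → ℤ) (p : ℕ) (hp : p.Prime)
    (hpr : r < p) : 1 - (r : ℝ) ^ 2 / (p : ℝ) ^ 2 ≤ loc a p := by
  have hp0 : (0 : ℝ) < p := by exact_mod_cast hp.pos
  have hpr' : (r : ℝ) < p := by exact_mod_cast hpr
  have h1 : (r : ℝ) / p < 1 := by rw [div_lt_one hp0]; exact hpr'
  have h2 := one_add_le_inv_pow r p hp
  have h3 : (nu a p : ℝ) / p ≤ (r : ℝ) / p := by
    gcongr
    exact_mod_cast nu_le a p
  calc 1 - (r : ℝ) ^ 2 / (p : ℝ) ^ 2 = (1 - (r : ℝ) / p) * (1 + (r : ℝ) / p) := by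
        field_simp; ring
    _ ≤ (1 - (nu a p : ℝ) / p) * ((1 - 1 / (p : ℝ))⁻¹) ^ r := by
        apply mul_le_mul (by linarith) h2 (by positivity) (by linarith)
    _ = loc a p := rfl

/-- telescoping product. -/
lemma prod_telescope (r Y : ℕ) (hY : r ≤ Y) :
    (∏ n ∈ Ioc r Y, (1 - (r : ℝ) ^ 2 / (n : ℝ) ^ 2)) * ((Y.factorial : ℝ) ^ 2 * (2 * r).factorial) =
      ((Y - r).factorial : ℝ) * (Y + r).factorial * (r.factorial : ℝ) ^ 2 := by
  induction Y, hY using Nat.le_induction with
  | base =>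
    simp only [Ioc_self, prod_empty, one_mul, Nat.sub_self, Nat.factorial_zero, Nat.cast_one]
    rw [← two_mul]; ring
  | succ Y hY ih =>
    rw [← Finset.insert_Ioc_right_eq_Ioc_add_one hY, Finset.prod_insert (by simp)]
    have h1 : ((Y + 1).factorial : ℝ) = (Y + 1) * Y.factorial := by
      rw [Nat.factorial_succ]; push_cast; ring
    have h2 : ((Y + 1 - r).factorial : ℝ) = (Y + 1 - r) * (Y - r).factorial := by
      rw [Nat.succ_sub hY, Nat.factorial_succ]
      push_cast [Nat.cast_sub hY]; ring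
    have h3 : ((Y + 1 + r).factorial : ℝ) = (Y + 1 + r) * (Y + r).factorial := by
      rw [show Y + 1 + r = (Y + r) + 1 by ring, Nat.factorial_succ]; push_cast; ring
    rw [h1, h2, h3]
    push_cast
    have hne : ((Y : ℝ) + 1) ≠ 0 := by positivity
    calc (1 - (r : ℝ) ^ 2 / ((Y : ℝ) + 1) ^ 2) * (∏ n ∈ Ioc r Y, (1 - (r : ℝ) ^ 2 / (n : ℝ) ^ 2)) *
          ((((Y : ℝ) + 1) * Y.factorial) ^ 2 * (2 * r).factorial)
        = ((1 - (r : ℝ) ^ 2 / ((Y : ℝ) + 1) ^ 2) * ((Y : ℝ) + 1) ^ 2) *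
          ((∏ n ∈ Ioc r Y, (1 - (r : ℝ) ^ 2 / (n : ℝ) ^ 2)) *
            ((Y.factorial : ℝ) ^ 2 * (2 * r).factorial)) := by ring
      _ = ((1 - (r : ℝ) ^ 2 / ((Y : ℝ) + 1) ^ 2) * ((Y : ℝ) + 1) ^ 2) *
          (((Y - r).factorial : ℝ) * (Y + r).factorial * (r.factorial : ℝ) ^ 2) := by rw [ih]
      _ = _ := by
          have : (1 - (r : ℝ) ^ 2 / ((Y : ℝ) + 1) ^ 2) * ((Y : ℝ) + 1) ^ 2 =
              ((Y : ℝ) + 1 - r) * ((Y : ℝ) + 1 + r) := by
            field_simp; ring
          rw [this]; ring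

lemma prod_telescope_ge (r Y : ℕ) :
    ((r.factorial : ℝ) ^ 2 / (2 * r).factorial) ≤
      ∏ n ∈ Ioc r Y, (1 - (r : ℝ) ^ 2 / (n : ℝ) ^ 2) := by
  rcases Nat.lt_or_ge Y r with h | h
  · rw [Finset.Ioc_eq_empty (by omega), Finset.prod_empty]
    rw [div_le_one (by positivity)]
    have := Nat.factorial_mul_factorial_dvd_factorial_add r r
    have h2 := Nat.le_of_dvd (Nat.factorial_pos _) this
    rw [sq, two_mul]
    exact_mod_cast h2
  · have h1 := prod_telescope r Y h
    have h2 : ((Y.factorial : ℝ)) ^ 2 ≤ ((Y - r).factorial : ℝ) * (Y + r).factorial := by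
      have h3 := Nat.choose_le_centralBinom (Y + r) Y
      rw [Nat.centralBinom] at h3
      have h4 : (2 * Y).choose (Y + r) * (Y + r).factorial * (Y - r).factorial = (2 * Y).factorial := by
        have := Nat.choose_mul_factorial_mul_factorial (n := 2 * Y) (k := Y + r) (by omega)
        rwa [show 2 * Y - (Y + r) = Y - r by omega] at this
      have h5 : (2 * Y).choose Y * Y.factorial * Y.factorial = (2 * Y).factorial := by
        have := Nat.choose_mul_factorial_mul_factorial (n := 2 * Y) (k := Y) (by omega)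
        rwa [show 2 * Y - Y = Y by omega] at this
      have h6 : (2 * Y).choose (Y + r) * (Y.factorial * Y.factorial) ≤
          (2 * Y).choose (Y + r) * ((Y + r).factorial * (Y - r).factorial) := by
        calc (2 * Y).choose (Y + r) * (Y.factorial * Y.factorial) ≤
            (2 * Y).choose Y * (Y.factorial * Y.factorial) := Nat.mul_le_mul_right _ h3
          _ = (2 * Y).choose (Y + r) * ((Y + r).factorial * (Y - r).factorial) := by
              rw [← mul_assoc, h5, ← h4, mul_assoc]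
      have h7 : 0 < (2 * Y).choose (Y + r) := Nat.choose_pos (by omega)
      have h8 := Nat.le_of_mul_le_mul_left h6 h7
      have h9 : Y.factorial ^ 2 ≤ (Y - r).factorial * (Y + r).factorial := by
        rw [sq, mul_comm (Y - r).factorial]; exact h8
      exact_mod_cast h9
    have hY : (0 : ℝ) < (Y.factorial : ℝ) ^ 2 := by positivity
    have hr : (0 : ℝ) < ((2 * r).factorial : ℝ) := by positivity
    rw [div_le_iff₀ hr]
    have h3 : (∏ n ∈ Ioc r Y, (1 - (r : ℝ) ^ 2 / (n : ℝ) ^ 2)) * (2 * r).factorial =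
        ((Y - r).factorial : ℝ) * (Y + r).factorial * (r.factorial : ℝ) ^ 2 / (Y.factorial : ℝ) ^ 2 := by
      rw [eq_div_iff hY.ne', ← h1]; ring
    rw [h3, le_div_iff₀ hY]
    have hrf : (0 : ℝ) ≤ (r.factorial : ℝ) ^ 2 := by positivity
    nlinarith

/-- Uniform lower bound for finite products of local factors. -/
lemma prod_loc_ge {r : ℕ} (hr : 1 ≤ r) (a : Fin r → ℤ) (hadm : ∀ p : ℕ, p.Prime → nu a p < p)
    (F : Finset ℕ) (hF : ∀ p ∈ F, p.Prime) :
    (1 / (r : ℝ)) ^ r * ((r.factorial : ℝ) ^ 2 / (2 * r).factorial) ≤ ∏ p ∈ F, loc a p := by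
  classical
  have hr0 : (0 : ℝ) < r := by exact_mod_cast hr
  have hr1 : 1 / (r : ℝ) ≤ 1 := by
    rw [div_le_one hr0]; exact_mod_cast hr
  rw [← Finset.prod_filter_mul_prod_filter_not F (fun p => p ≤ r)]
  apply mul_le_mul
  · -- small primes
    calc (1 / (r : ℝ)) ^ r ≤ (1 / (r : ℝ)) ^ (F.filter (fun p => p ≤ r)).card := by
          apply pow_le_pow_of_le_one (by positivity) hr1
          have : F.filter (fun p => p ≤ r) ⊆ Icc 1 r := by
            intro p hp
            simp only [mem_filter] at hp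
            rw [mem_Icc]
            exact ⟨(hF p hp.1).one_lt.le, hp.2⟩
          simpa using Finset.card_le_card this
      _ = ∏ p ∈ F.filter (fun p => p ≤ r), 1 / (r : ℝ) := by rw [Finset.prod_const]
      _ ≤ ∏ p ∈ F.filter (fun p => p ≤ r), loc a p := by
          refine Finset.prod_le_prod (fun _ _ => by positivity) fun p hp => ?_
          simp only [mem_filter] at hp
          exact loc_ge_of_le a p (hF p hp.1) (hadm p (hF p hp.1)) hp.2
  · -- large primes
    set F' := F.filter (fun p => ¬ p ≤ r) with hF'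
    set Y := F.sup id with hY
    have hsub : F' ⊆ Ioc r Y := by
      intro p hp
      simp only [hF', mem_filter, not_le] at hp
      rw [mem_Ioc]
      exact ⟨hp.2, Finset.le_sup (f := id) hp.1⟩
    have hfac : ∀ n ∈ Ioc r Y, 0 ≤ 1 - (r : ℝ) ^ 2 / (n : ℝ) ^ 2 ∧
        1 - (r : ℝ) ^ 2 / (n : ℝ) ^ 2 ≤ 1 := by
      intro n hn
      rw [mem_Ioc] at hn
      have hn0 : (0 : ℝ) < n := by exact_mod_cast (by omega : 0 < n)
      have hn1 : (r : ℝ) ≤ n := by exact_mod_cast hn.1.le
      have h1 : (r : ℝ) ^ 2 / (n : ℝ) ^ 2 ≤ 1 := by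
        rw [div_le_one (by positivity)]
        exact pow_le_pow_left₀ hr0.le hn1 2
      have h2 : 0 ≤ (r : ℝ) ^ 2 / (n : ℝ) ^ 2 := by positivity
      constructor <;> linarith
    calc ((r.factorial : ℝ) ^ 2 / (2 * r).factorial)
        ≤ ∏ n ∈ Ioc r Y, (1 - (r : ℝ) ^ 2 / (n : ℝ) ^ 2) := prod_telescope_ge r Y
      _ ≤ ∏ n ∈ F', (1 - (r : ℝ) ^ 2 / (n : ℝ) ^ 2) := by
          rw [← Finset.prod_sdiff hsub]
          apply mul_le_of_le_one_left
          · exact Finset.prod_nonneg fun n hn => (hfac n (hsub hn)).1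
          · apply Finset.prod_le_one
            · intro n hn; exact (hfac n (Finset.mem_sdiff.1 hn).1).1
            · intro n hn; exact (hfac n (Finset.mem_sdiff.1 hn).1).2
      _ ≤ ∏ p ∈ F', loc a p := by
          refine Finset.prod_le_prod (fun n hn => (hfac n (hsub hn)).1) fun p hp => ?_
          simp only [hF', mem_filter, not_le] at hp
          exact loc_ge_of_gt a p (hF p hp.1) hp.2
  · positivity
  · refine Finset.prod_nonneg fun p hp => ?_
    simp only [mem_filter] at hp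
    exact (loc_pos a p (hF p hp.1) (hadm p (hF p hp.1))).le

end Pool.Agent.Lib.Sieve4
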