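import Mathlib
import Pool.Agent.Lib.Sieve4.Tuples

/-!
# Lemma U: the uniform upper bound for prime tuples with the full singular series
-/

set_option autoImplicit false

open Finset Real

namespace Pool.Agent.Lib.Sieve4

lemma loc_le_one {r : ℕ} (a : Fin r → ℤ) (p : ℕ) (hp : p.Prime)
    (hnu : nu a p = r) (_hpr : r ≤ p) : loc a p ≤ 1 := by
  have hp0 : (0 : ℝ) < p := by exact_mod_cast hp.pos
  have hp1 : (1 : ℝ) < p := by exact_mod_cast hp.one_lt
  have h2 : 1 / (p : ℝ) < 1 := by rw [div_lt_one hp0]; exact hp1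
  rw [loc, hnu]
  have h3 : 1 - (r : ℝ) / p ≤ (1 - 1 / (p : ℝ)) ^ r := by
    have := one_add_mul_le_pow (a := -(1 / (p : ℝ))) (by linarith) r
    calc 1 - (r : ℝ) / p = 1 + (r : ℝ) * -(1 / (p : ℝ)) := by ring
      _ ≤ _ := this
      _ = _ := by ring
  have h4 : 0 < (1 - 1 / (p : ℝ)) ^ r := pow_pos (by linarith) _
  rw [inv_pow]
  rw [← div_eq_mul_inv, div_le_one h4]
  exact h3

/-- `nu a p = r` for `p` not dividing any difference. -/
lemma nu_eq {r : ℕ} (a : Fin r → ℤ) (p : ℕ)
    (h : ∀ i j, i ≠ j → ¬ (p : ℤ) ∣ a i - a j) : nu a p = r := by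
  rw [nu, Finset.card_image_of_injective]
  · simp
  · intro i j hij
    by_contra hne
    apply h i j hne
    rw [← ZMod.intCast_zmod_eq_zero_iff_dvd]
    push_cast
    simp only at hij
    rw [hij, sub_self]

/-- The singular series converges. -/
theorem multipliable_loc {r : ℕ} (a : Fin r → ℤ) (ha : Function.Injective a) :
    Multipliable (fun p : Nat.Primes => loc a p) := by
  have hs : Summable (fun p : Nat.Primes => loc a p - 1) := by
    -- all but finitely many primes are good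
    have hfin : Set.Finite {p : Nat.Primes | ¬ (r < (p : ℕ) ∧ ∀ i j, i ≠ j → ¬ ((p : ℕ) : ℤ) ∣ a i - a j)} := by
      have hsub : {p : Nat.Primes | ¬ (r < (p : ℕ) ∧ ∀ i j, i ≠ j → ¬ ((p : ℕ) : ℤ) ∣ a i - a j)} ⊆
          (fun p : Nat.Primes => (p : ℕ)) ⁻¹' (Set.Iic (r + ∑ i, ∑ j, (a i - a j).natAbs)) := by
        intro p hp
        simp only [Set.mem_preimage, Set.mem_Iic]
        by_contra hcon
        push Not at hcon
        apply hp
        refine ⟨by omega, fun i j hij hdvd => ?_⟩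
        have hne : a i - a j ≠ 0 := sub_ne_zero.2 (fun h => hij (ha h))
        have h1 : (p : ℕ) ≤ (a i - a j).natAbs :=
          Nat.le_of_dvd (Int.natAbs_pos.2 hne) (Int.natCast_dvd.1 hdvd)
        have h2 : (a i - a j).natAbs ≤ ∑ j, (a i - a j).natAbs :=
          Finset.single_le_sum (f := fun j => (a i - a j).natAbs) (fun _ _ => Nat.zero_le _) (mem_univ j)
        have h3 : ∑ j, (a i - a j).natAbs ≤ ∑ i, ∑ j, (a i - a j).natAbs :=
          Finset.single_le_sum (f := fun i => ∑ j, (a i - a j).natAbs) (fun _ _ => Nat.zero_le _)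
            (mem_univ i)
        omega
      refine Set.Finite.subset (Set.Finite.preimage ?_ (Set.finite_Iic _)) hsub
      exact fun p _ q _ h => Subtype.ext h
    have hsum : Summable (fun p : Nat.Primes => (r : ℝ) ^ 2 / ((p : ℕ) : ℝ) ^ 2) := by
      have h1 : Summable (fun n : ℕ => (r : ℝ) ^ 2 / (n : ℝ) ^ 2) := by
        have := (Real.summable_one_div_nat_pow (p := 2)).2 (by norm_num)
        refine (this.mul_left ((r : ℝ) ^ 2)).congr fun n => ?_
        ring
      exact h1.comp_injective Nat.Primes.coe_nat_injective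
    refine Summable.of_norm_bounded_eventually hsum ?_
    rw [Filter.eventually_cofinite]
    refine hfin.subset ?_
    intro p hp hgood
    apply hp
    have hpp := p.2
    have h1 : loc a p ≤ 1 := loc_le_one a p hpp (nu_eq a p hgood.2) hgood.1.le
    have h2 := loc_ge_of_gt a p hpp hgood.1
    rw [Real.norm_eq_abs, abs_le]
    constructor
    · linarith
    · have : 0 ≤ (r : ℝ) ^ 2 / ((p : ℕ) : ℝ) ^ 2 := by positivity
      linarith
  have := Real.multipliable_one_add_of_summable hs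
  refine this.congr fun p => ?_
  ring

/-- The lower bound constant for products of local factors. -/
noncomputable def c0 (r : ℕ) : ℝ := (1 / (r : ℝ)) ^ r * ((r.factorial : ℝ) ^ 2 / (2 * r).factorial)

lemma c0_pos (r : ℕ) (hr : 1 ≤ r) : 0 < c0 r := by
  have hr0 : (0 : ℝ) < r := by exact_mod_cast hr
  rw [c0]; positivity

/-- The singular series is at least `c0 r` times any partial product. -/
lemma partial_le {r : ℕ} (hr : 1 ≤ r) (a : Fin r → ℤ) (hadm : ∀ p : ℕ, p.Prime → nu a p < p)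
    (S : ℝ) (hS : HasProd (fun p : Nat.Primes => loc a p) S) (z : ℕ) :
    c0 r * ∏ p ∈ Nat.primesLE z, loc a p ≤ S := by
  classical
  -- the finset of Nat.Primes ≤ z
  set F : Finset Nat.Primes := (Nat.primesLE z).attach.map
    ⟨fun p => ⟨p.1, (Nat.mem_primesLE.1 p.2).2⟩, by
      intro p q h; exact Subtype.ext (congrArg (fun t : Nat.Primes => (t : ℕ)) h)⟩ with hF
  have hFprod : ∏ p ∈ F, loc a (p : ℕ) = ∏ p ∈ Nat.primesLE z, loc a p := by
    rw [hF, Finset.prod_map]
    exact Finset.prod_attach (Nat.primesLE z) (fun p => loc a p)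
  refine ge_of_tendsto hS ?_
  rw [SummationFilter.unconditional_filter, Filter.eventually_atTop]
  refine ⟨F, fun F' hF' => ?_⟩
  rw [← Finset.prod_sdiff hF', hFprod]
  have hpos : 0 ≤ ∏ p ∈ Nat.primesLE z, loc a p := Finset.prod_nonneg fun p hp =>
    (loc_pos a p (Nat.mem_primesLE.1 hp).2 (hadm p (Nat.mem_primesLE.1 hp).2)).le
  apply mul_le_mul_of_nonneg_right _ hpos
  have h1 := prod_loc_ge hr a hadm ((F' \ F).map ⟨fun p : Nat.Primes => (p : ℕ), Nat.Primes.coe_nat_injective⟩)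
    (by
      intro p hp
      simp only [Finset.mem_map] at hp
      obtain ⟨q, _, rfl⟩ := hp
      exact q.2)
  rw [Finset.prod_map] at h1
  exact h1

lemma c0_le {r : ℕ} (hr : 1 ≤ r) (a : Fin r → ℤ) (hadm : ∀ p : ℕ, p.Prime → nu a p < p)
    (S : ℝ) (hS : HasProd (fun p : Nat.Primes => loc a p) S) : c0 r ≤ S := by
  have := partial_le hr a hadm S hS 0
  simpa using this

/-- `(log x)^r ≤ (2r)^r √x`. -/
lemma log_pow_le (r : ℕ) (hr : 1 ≤ r) (x : ℝ) (hx : 1 ≤ x) :
    Real.log x ^ r ≤ (2 * r) ^ r * x ^ (1 / 2 : ℝ) := by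
  have hr0 : (0 : ℝ) < r := by exact_mod_cast hr
  have hx0 : 0 < x := by linarith
  have h1 : Real.log x ≤ 2 * r * x ^ (1 / (2 * r) : ℝ) := by
    have h2 := Real.log_le_rpow_div hx0.le (ε := 1 / (2 * r)) (by positivity)
    calc Real.log x ≤ x ^ (1 / (2 * r) : ℝ) / (1 / (2 * r)) := h2
      _ = _ := by field_simp
  calc Real.log x ^ r ≤ (2 * r * x ^ (1 / (2 * r) : ℝ)) ^ r :=
        pow_le_pow_left₀ (Real.log_nonneg hx) h1 r
    _ = (2 * r) ^ r * x ^ (1 / 2 : ℝ) := by
        rw [mul_pow, ← Real.rpow_natCast (x ^ (1 / (2 * r) : ℝ)) r, ← Real.rpow_mul hx0.le]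
        congr 2
        field_simp

/-- **Lemma U.** For every `r ≥ 1` there is a constant `K` such that for all admissible shifts
`a : Fin r → ℤ` (without any size restriction), with singular series `S`, and all `x ≥ 2`, the
number of `n ≤ x` with all `n + a i` prime is at most `K S x / (log x)^r`. -/
theorem tuple_upper (r : ℕ) (hr : 1 ≤ r) : ∃ K : ℝ, 0 < K ∧
    ∀ (a : Fin r → ℤ), (∀ p : ℕ, p.Prime → nu a p < p) →
    ∀ S : ℝ, HasProd (fun p : Nat.Primes => loc a p) S →
    ∀ x : ℕ, 2 ≤ x →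
      (((Icc 1 x).filter (fun n : ℕ => ∀ i, Nat.Prime ((n : ℤ) + a i).toNat)).card : ℝ) ≤
        K * S * x / Real.log x ^ r := by
  set E : ℕ := (6 * r + 1) * (2 * r + 4) with hE
  have hE1 : 1 ≤ E := by rw [hE]; exact Nat.mul_pos (by omega) (by omega)
  have hE0 : (0 : ℝ) < E := by exact_mod_cast hE1
  have hr0 : (0 : ℝ) < r := by exact_mod_cast hr
  have hc := c0_pos r hr
  refine ⟨(4 * (2 * E) ^ r + (1 + r) * (2 * r) ^ r) / c0 r, by positivity, ?_⟩
  intro a hadm S hS x hx
  have hSc := c0_le hr a hadm S hS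
  have hSpos : 0 < S := lt_of_lt_of_le hc hSc
  have hx0 : (0 : ℝ) < x := by exact_mod_cast (by omega : 0 < x)
  have hx1 : (1 : ℝ) < x := by exact_mod_cast (by omega : 1 < x)
  have hlog : 0 < Real.log x := Real.log_pos hx1
  have hlogr : 0 < Real.log x ^ r := pow_pos hlog r
  rw [le_div_iff₀ hlogr]
  by_cases hcase : (x : ℝ) < 4 ^ E
  · -- small x
    have h1 : (((Icc 1 x).filter (fun n : ℕ => ∀ i, Nat.Prime ((n : ℤ) + a i).toNat)).card : ℝ) ≤ x := by
      have := Finset.card_filter_le (Icc 1 x) (fun n : ℕ => ∀ i, Nat.Prime ((n : ℤ) + a i).toNat)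
      simp only [Nat.card_Icc, Nat.add_sub_cancel] at this
      exact_mod_cast this
    have h2 : Real.log x ≤ 2 * E := by
      have h3 : Real.log x ≤ Real.log (4 ^ E) := Real.log_le_log hx0 hcase.le
      rw [Real.log_pow] at h3
      have h4 : Real.log 4 ≤ 2 := by
        rw [show (4 : ℝ) = 2 ^ 2 by norm_num, Real.log_pow]
        have := Real.log_two_lt_d9
        push_cast; linarith
      calc Real.log x ≤ E * Real.log 4 := h3
        _ ≤ E * 2 := by gcongr
        _ = 2 * E := by ring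
    have h3 : Real.log x ^ r ≤ (2 * E) ^ r := pow_le_pow_left₀ hlog.le h2 r
    calc (((Icc 1 x).filter (fun n : ℕ => ∀ i, Nat.Prime ((n : ℤ) + a i).toNat)).card : ℝ) *
          Real.log x ^ r ≤ x * (2 * E) ^ r := by gcongr
      _ = ((2 * E) ^ r / c0 r) * c0 r * x := by field_simp
      _ ≤ ((4 * (2 * E) ^ r + (1 + r) * (2 * r) ^ r) / c0 r) * S * x := by
          gcongr
          have h5 : (0 : ℝ) ≤ (2 * E) ^ r := by positivity
          have h6 : (0 : ℝ) ≤ (1 + r) * (2 * r) ^ r := by positivity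
          linarith
  · push Not at hcase
    set y : ℝ := (x : ℝ) ^ (1 / (2 * E) : ℝ) with hy
    have hy2 : 2 ≤ y := by
      have h1 : (2 : ℝ) = (4 ^ E : ℝ) ^ (1 / (2 * E) : ℝ) := by
        rw [← Real.rpow_natCast 4 E, ← Real.rpow_mul (by norm_num)]
        rw [show ((E : ℝ) * (1 / (2 * E)) : ℝ) = 1 / 2 by field_simp]
        rw [show (4 : ℝ) = 2 ^ (2 : ℝ) by norm_num, ← Real.rpow_mul (by norm_num)]
        norm_num
      rw [h1, hy]
      exact Real.rpow_le_rpow (by positivity) hcase (by positivity)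
    set z : ℕ := ⌊y⌋₊ with hz
    have hz2 : 2 ≤ z := Nat.le_floor (by exact_mod_cast hy2)
    have hzy : (z : ℝ) ≤ y := Nat.floor_le (by linarith)
    have hzy' : y < z + 1 := Nat.lt_floor_add_one y
    have hzE : (z : ℝ) ^ E ≤ (x : ℝ) ^ (1 / 2 : ℝ) := by
      calc (z : ℝ) ^ E ≤ y ^ E := pow_le_pow_left₀ (Nat.cast_nonneg _) hzy E
        _ = (x : ℝ) ^ (1 / 2 : ℝ) := by
            rw [hy, ← Real.rpow_natCast, ← Real.rpow_mul hx0.le]
            congr 1
            field_simp
    have hzx : (z : ℝ) ≤ (x : ℝ) ^ (1 / 2 : ℝ) := by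
      refine le_trans ?_ hzE
      have : (1 : ℝ) ≤ z := by exact_mod_cast (by omega : 1 ≤ z)
      exact le_self_pow₀ this (by omega)
    have hlogz : Real.log x / (2 * E) ≤ Real.log (z + 1) := by
      have h1 : Real.log y = Real.log x / (2 * E) := by
        rw [hy, Real.log_rpow hx0]; ring
      rw [← h1]
      exact Real.log_le_log (by linarith) hzy'.le
    have hmain := tuple_sieve a hadm z hz2 x
    rw [← hE] at hmain
    have hprod : ∏ p ∈ Nat.primesLE z, (1 - (nu a p : ℝ) / p) =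
        (∏ p ∈ Nat.primesLE z, loc a p) * (∏ p ∈ Nat.primesLE z, (1 - 1 / (p : ℝ))) ^ r := by
      rw [← Finset.prod_pow, ← Finset.prod_mul_distrib]
      refine Finset.prod_congr rfl fun p hp => ?_
      have hpp := (Nat.mem_primesLE.1 hp).2
      have hp0 : (0 : ℝ) < p := by exact_mod_cast hpp.pos
      have hp1 : (1 : ℝ) < p := by exact_mod_cast hpp.one_lt
      have h2 : 1 / (p : ℝ) < 1 := by rw [div_lt_one hp0]; exact hp1
      rw [loc, mul_assoc, ← mul_pow, inv_mul_cancel₀ (by linarith), one_pow, mul_one]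
    have hP1 : ∏ p ∈ Nat.primesLE z, (1 - 1 / (p : ℝ)) ≤ 2 * E / Real.log x := by
      refine (prod_one_sub_inv_le z (by omega)).trans ?_
      rw [div_le_div_iff₀ (lt_of_lt_of_le (by positivity) hlogz) hlog, one_mul]
      rw [div_le_iff₀ (by positivity)] at hlogz
      linarith
    have hP0 : 0 ≤ ∏ p ∈ Nat.primesLE z, (1 - 1 / (p : ℝ)) := Finset.prod_nonneg fun p hp => by
      have hpp := (Nat.mem_primesLE.1 hp).2
      have hp0 : (0 : ℝ) < p := by exact_mod_cast hpp.pos
      have hp1 : (1 : ℝ) < p := by exact_mod_cast hpp.one_lt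
      have h2 : 1 / (p : ℝ) < 1 := by rw [div_lt_one hp0]; exact hp1
      linarith
    have hloc : ∏ p ∈ Nat.primesLE z, loc a p ≤ S / c0 r := by
      rw [le_div_iff₀ hc, mul_comm]
      exact partial_le hr a hadm S hS z
    have hloc0 : 0 ≤ ∏ p ∈ Nat.primesLE z, loc a p := Finset.prod_nonneg fun p hp =>
      (loc_pos a p (Nat.mem_primesLE.1 hp).2 (hadm p (Nat.mem_primesLE.1 hp).2)).le
    have hprod' : ∏ p ∈ Nat.primesLE z, (1 - (nu a p : ℝ) / p) ≤ S / c0 r * (2 * E / Real.log x) ^ r := by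
      rw [hprod]
      apply mul_le_mul hloc (pow_le_pow_left₀ hP0 hP1 r) (pow_nonneg hP0 r) (by positivity)
    have hlp := log_pow_le r hr x hx1.le
    have hsqrt : (x : ℝ) ^ (1 / 2 : ℝ) * (x : ℝ) ^ (1 / 2 : ℝ) = x := by
      rw [← Real.rpow_add hx0]; norm_num
    have hsq0 : 0 < (x : ℝ) ^ (1 / 2 : ℝ) := by positivity
    calc (((Icc 1 x).filter (fun n : ℕ => ∀ i, Nat.Prime ((n : ℤ) + a i).toNat)).card : ℝ) *
          Real.log x ^ r
        ≤ (2 * (x + 1) * (S / c0 r * (2 * E / Real.log x) ^ r) + (x : ℝ) ^ (1 / 2 : ℝ) +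
            r * (x : ℝ) ^ (1 / 2 : ℝ)) * Real.log x ^ r := by
          gcongr
          refine hmain.trans ?_
          gcongr
      _ = 2 * (x + 1) * (S / c0 r * (2 * E) ^ r) +
            (1 + r) * ((x : ℝ) ^ (1 / 2 : ℝ) * Real.log x ^ r) := by
          rw [div_pow]; field_simp; ring
      _ ≤ 4 * x * (S / c0 r * (2 * E) ^ r) +
            (1 + r) * ((x : ℝ) ^ (1 / 2 : ℝ) * ((2 * r) ^ r * (x : ℝ) ^ (1 / 2 : ℝ))) := by
          apply add_le_add
          · apply mul_le_mul_of_nonneg_right _ (by positivity)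
            linarith
          · gcongr
      _ = 4 * x * (S / c0 r * (2 * E) ^ r) +
            (1 + r) * (2 * r) ^ r * ((x : ℝ) ^ (1 / 2 : ℝ) * (x : ℝ) ^ (1 / 2 : ℝ)) := by ring
      _ = 4 * x * (S / c0 r * (2 * E) ^ r) + (1 + r) * (2 * r) ^ r * x := by
          rw [hsqrt]
      _ ≤ 4 * x * (S / c0 r * (2 * E) ^ r) + (1 + r) * (2 * r) ^ r * x * (S / c0 r) := by
          have h7 : 1 ≤ S / c0 r := by rw [le_div_iff₀ hc, one_mul]; exact hSc
          have h8 : 0 ≤ (1 + (r : ℝ)) * (2 * r) ^ r * x := by positivity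
          have := mul_le_mul_of_nonneg_left h7 h8
          linarith
      _ = _ := by field_simp

end Pool.Agent.Lib.Sieve4
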