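import Mathlib

/-!
# Elementary estimates of Mertens type
-/

set_option autoImplicit false

open Finset Real

namespace Pool.Agent.Lib.Sieve4

/-- `∑_{p ≤ n} log p / p ≤ log n + log 4`. -/
lemma sum_log_div_le (n : ℕ) (hn : 1 ≤ n) :
    ∑ p ∈ Nat.primesLE n, Real.log p / p ≤ Real.log n + Real.log 4 := by
  have hn0 : (0 : ℝ) < n := by exact_mod_cast hn
  -- sum of logs
  have h1 : ∑ k ∈ Ioc 0 n, ∑ p ∈ k.primeFactors, Real.log p ≤ n * Real.log n := by
    calc ∑ k ∈ Ioc 0 n, ∑ p ∈ k.primeFactors, Real.log p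
        ≤ ∑ k ∈ Ioc 0 n, Real.log n := by
          refine Finset.sum_le_sum fun k hk => ?_
          simp only [mem_Ioc] at hk
          have h0 : ∑ p ∈ k.primeFactors, Real.log p = Real.log ((∏ p ∈ k.primeFactors, p : ℕ) : ℝ) := by
            push_cast
            rw [Real.log_prod]
            intro p hp
            have := (Nat.prime_of_mem_primeFactors hp).pos
            positivity
          rw [h0]
          have hle : ∏ p ∈ k.primeFactors, p ≤ n :=
            (Nat.le_of_dvd hk.1 (Nat.prod_primeFactors_dvd k)).trans hk.2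
          apply Real.log_le_log
          · exact_mod_cast Finset.prod_pos fun p hp => (Nat.prime_of_mem_primeFactors hp).pos
          · exact_mod_cast hle
      _ = n * Real.log n := by simp
  have h2 : ∑ k ∈ Ioc 0 n, ∑ p ∈ k.primeFactors, Real.log p =
      ∑ p ∈ Nat.primesLE n, Real.log p * ((n / p : ℕ) : ℝ) := by
    have : ∀ k ∈ Ioc 0 n, ∑ p ∈ k.primeFactors, Real.log p =
        ∑ p ∈ Nat.primesLE n, if p ∣ k then Real.log p else 0 := by
      intro k hk
      simp only [mem_Ioc] at hk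
      rw [← Finset.sum_filter]
      refine Finset.sum_congr ?_ fun _ _ => rfl
      ext p
      simp only [Nat.mem_primeFactors, mem_filter, Nat.mem_primesLE]
      constructor
      · rintro ⟨h1, h2, h3⟩
        exact ⟨⟨(Nat.le_of_dvd hk.1 h2).trans hk.2, h1⟩, h2⟩
      · rintro ⟨⟨h1, h2⟩, h3⟩
        exact ⟨h2, h3, by omega⟩
    rw [Finset.sum_congr rfl this, Finset.sum_comm]
    refine Finset.sum_congr rfl fun p hp => ?_
    rw [← Finset.sum_filter, Finset.sum_const, Nat.Ioc_filter_dvd_card_eq_div, nsmul_eq_mul, mul_comm]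
  have h3 : ∑ p ∈ Nat.primesLE n, Real.log p * ((n : ℝ) / p - 1) ≤
      ∑ p ∈ Nat.primesLE n, Real.log p * ((n / p : ℕ) : ℝ) := by
    refine Finset.sum_le_sum fun p hp => ?_
    have hp1 := Nat.two_le_of_mem_primesLE hp
    have hp2 : (1 : ℝ) ≤ p := by exact_mod_cast (by omega : 1 ≤ p)
    apply mul_le_mul_of_nonneg_left _ (Real.log_nonneg hp2)
    have := Nat.lt_floor_add_one ((n : ℝ) / p)
    rw [Nat.floor_div_natCast, Nat.floor_natCast] at this
    linarith
  have h4 : ∑ p ∈ Nat.primesLE n, Real.log p * ((n : ℝ) / p - 1) =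
      n * (∑ p ∈ Nat.primesLE n, Real.log p / p) - Chebyshev.theta n := by
    rw [Chebyshev.theta_eq_sum_primesLE_log, Finset.mul_sum, ← Finset.sum_sub_distrib]
    refine Finset.sum_congr rfl fun p hp => ?_
    ring
  have h5 := Chebyshev.theta_le_log4_mul_x (x := n) hn0.le
  have h6 : n * (∑ p ∈ Nat.primesLE n, Real.log p / p) ≤ n * (Real.log n + Real.log 4) := by
    rw [h2] at h1
    linarith
  exact le_of_mul_le_mul_left h6 hn0

/-- `∏_{p ≤ n} (1 - 1/p) ≤ 1 / log (n+1)`. -/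
lemma prod_one_sub_inv_le (n : ℕ) (hn : 1 ≤ n) :
    ∏ p ∈ Nat.primesLE n, (1 - 1 / (p : ℝ)) ≤ 1 / Real.log (n + 1) := by
  have hpos : ∀ p ∈ Nat.primesLE n, 0 < 1 - 1 / (p : ℝ) := by
    intro p hp
    have hp1 := Nat.two_le_of_mem_primesLE hp
    have hp2 : (2 : ℝ) ≤ p := by exact_mod_cast hp1
    have : 1 / (p : ℝ) ≤ 1 / 2 := by
      apply one_div_le_one_div_of_le <;> linarith
    linarith
  have hlogpos : 0 < Real.log (n + 1) := by
    apply Real.log_pos
    have : (1 : ℝ) ≤ n := by exact_mod_cast hn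
    linarith
  rw [le_div_iff₀ hlogpos]
  have hprodpos : 0 < ∏ p ∈ Nat.primesLE n, (1 - 1 / (p : ℝ)) := Finset.prod_pos hpos
  have hkey : Real.log (n + 1) ≤ ∏ p ∈ Nat.primesLE n, (1 - 1 / (p : ℝ))⁻¹ := by
    have h1 : Real.log (n + 1) ≤ (harmonic n : ℝ) := by
      have := log_add_one_le_harmonic n
      push_cast at this
      exact this
    refine h1.trans ?_
    have h2 : (harmonic n : ℝ) = ∑ m ∈ Icc 1 n, ((m : ℝ))⁻¹ := by
      rw [harmonic_eq_sum_Icc]; push_cast; rfl
    rw [h2]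
    -- Euler product over smooth numbers
    have h3 := EulerProduct.summable_and_hasSum_smoothNumbers_prod_primesBelow_tsum
      (f := fun m : ℕ => ((m : ℝ))⁻¹) (by simp) (by
        intro a b _; push_cast; rw [mul_inv]) (by
        intro p hp
        have : (1 : ℝ) < p := by exact_mod_cast hp.one_lt
        have h := summable_geometric_of_lt_one (r := ((p : ℝ))⁻¹) (by positivity) (inv_lt_one_of_one_lt₀ this)
        refine (h.congr fun k => ?_).norm
        simp) (n + 1)
    have h4 : ∏ p ∈ (n + 1).primesBelow, ∑' k : ℕ, (((p ^ k : ℕ) : ℝ))⁻¹ =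
        ∏ p ∈ Nat.primesLE n, (1 - 1 / (p : ℝ))⁻¹ := by
      rw [Nat.primesLE]
      refine Finset.prod_congr rfl fun p hp => ?_
      have hp' := Nat.prime_of_mem_primesBelow hp
      have : (1 : ℝ) < p := by exact_mod_cast hp'.one_lt
      rw [one_div, ← tsum_geometric_of_lt_one (by positivity) (inv_lt_one_of_one_lt₀ this)]
      refine tsum_congr fun k => ?_
      push_cast
      rw [inv_pow]
    rw [← h4, ← h3.2.tsum_eq]
    have hinj : Function.Injective (fun m : (n + 1).smoothNumbers => (m : ℕ)) := Subtype.val_injective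
    have h5 : ∑ m ∈ Icc 1 n, ((m : ℝ))⁻¹ = ∑ m ∈ (Icc 1 n).attach, (((m : ℕ) : ℝ))⁻¹ :=
      (Finset.sum_attach (Icc 1 n) fun m => ((m : ℝ))⁻¹).symm
    have hmem : ∀ m ∈ Icc 1 n, m ∈ (n + 1).smoothNumbers := by
      intro m hm
      rw [mem_Icc] at hm
      exact Nat.mem_smoothNumbers_of_lt (by omega) (by omega)
    set T : Finset ((n + 1).smoothNumbers) :=
      (Icc 1 n).attach.map ⟨fun m => ⟨m.1, hmem m.1 m.2⟩, by
        intro a b hab
        simp only [Subtype.mk.injEq] at hab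
        exact Subtype.ext hab⟩ with hT
    have h6 : ∑ m ∈ (Icc 1 n).attach, (((m : ℕ) : ℝ))⁻¹ = ∑ m ∈ T, (((m : ℕ) : ℝ))⁻¹ := by
      rw [hT, Finset.sum_map]
      rfl
    rw [h5, h6]
    exact h3.2.summable.sum_le_tsum T (fun m _ => by positivity)
  have hinv : ∏ p ∈ Nat.primesLE n, (1 - 1 / (p : ℝ))⁻¹ =
      (∏ p ∈ Nat.primesLE n, (1 - 1 / (p : ℝ)))⁻¹ := by
    rw [Finset.prod_inv_distrib]
  rw [hinv] at hkey
  calc (∏ p ∈ Nat.primesLE n, (1 - 1 / (p : ℝ))) * Real.log (n + 1)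
      ≤ (∏ p ∈ Nat.primesLE n, (1 - 1 / (p : ℝ))) * (∏ p ∈ Nat.primesLE n, (1 - 1 / (p : ℝ)))⁻¹ :=
        mul_le_mul_of_nonneg_left hkey hprodpos.le
    _ = 1 := mul_inv_cancel₀ hprodpos.ne'

end Pool.Agent.Lib.Sieve4
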