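import Mathlib
import Pool.Agent.Lib.Sieve4.Core
import Pool.Agent.Lib.Sieve4.Mertens

/-!
# The upper bound sieve in product form
-/

set_option autoImplicit false

open Finset Real

namespace Pool.Agent.Lib.Sieve4

lemma one_add_hh (Ω : ℕ → Finset ℕ) (p : ℕ) (hp : p.Prime) (hlt : (Ω p).card < p) :
    1 + hh Ω p = (1 - ((Ω p).card : ℝ) / p)⁻¹ := by
  have h3 : (0 : ℝ) < (p : ℝ) - (Ω p).card := by
    have : ((Ω p).card : ℝ) < p := by exact_mod_cast hlt
    linarith
  have hp0 : (0 : ℝ) < p := by exact_mod_cast hp.pos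
  have h4 : 1 - ((Ω p).card : ℝ) / p = (p - (Ω p).card) / p := by field_simp
  rw [h4, inv_div, hh]
  field_simp
  ring

lemma one_sub_pos (Ω : ℕ → Finset ℕ) (p : ℕ) (hp : p.Prime) (hlt : (Ω p).card < p) :
    0 < 1 - ((Ω p).card : ℝ) / p := by
  have hp0 : (0 : ℝ) < p := by exact_mod_cast hp.pos
  have : ((Ω p).card : ℝ) < p := by exact_mod_cast hlt
  have : ((Ω p).card : ℝ) / p < 1 := by rw [div_lt_one hp0]; exact this
  linarith

/-- Lower bound for the Selberg denominator by the full Euler product (Rankin's trick). -/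
theorem GG_lower (P : Finset ℕ) (z : ℕ) (hz : 2 ≤ z) (hP : ∀ p ∈ P, p.Prime)
    (hPz : ∀ p ∈ P, p ≤ z) (Ω : ℕ → Finset ℕ)
    (hlt : ∀ p ∈ P, (Ω p).card < p) (r : ℕ) (hr : ∀ p ∈ P, (Ω p).card ≤ r)
    (R : ℕ) (hR : z ^ (6 * r + 1) ≤ R) :
    (1 / 2) * ∏ p ∈ P, (1 - ((Ω p).card : ℝ) / p)⁻¹ ≤ GG P Ω R := by
  classical
  have hz1 : (1 : ℝ) < z := by exact_mod_cast (by omega : 1 < z)
  have hlogz : 0 < Real.log z := Real.log_pos hz1
  set δ : ℝ := 1 / Real.log z with hδ
  have hδpos : 0 < δ := by positivity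
  have hRpos : 0 < R := lt_of_lt_of_le (pow_pos (by omega) _) hR
  have hhn : ∀ p ∈ P, 0 ≤ hh Ω p := fun p hp => hh_nonneg Ω p (hlt p hp)
  have hfull : ∑ s ∈ P.powerset, ∏ p ∈ s, hh Ω p = ∏ p ∈ P, (1 + hh Ω p) :=
    (Finset.prod_one_add P).symm
  have hsplit : GG P Ω R + ∑ s ∈ P.powerset.filter (fun s => ¬ ∏ p ∈ s, p ≤ R), ∏ p ∈ s, hh Ω p =
      ∏ p ∈ P, (1 + hh Ω p) := by
    rw [← hfull, GG, DD, Finset.sum_filter_add_sum_filter_not]
  -- tail bound
  have htail : ∑ s ∈ P.powerset.filter (fun s => ¬ ∏ p ∈ s, p ≤ R), ∏ p ∈ s, hh Ω p ≤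
      Real.exp (-(δ * Real.log R)) * ∏ p ∈ P, (1 + hh Ω p * Real.exp (δ * Real.log p)) := by
    rw [Finset.prod_one_add, Finset.mul_sum]
    calc ∑ s ∈ P.powerset.filter (fun s => ¬ ∏ p ∈ s, p ≤ R), ∏ p ∈ s, hh Ω p
        ≤ ∑ s ∈ P.powerset.filter (fun s => ¬ ∏ p ∈ s, p ≤ R),
          Real.exp (-(δ * Real.log R)) * ∏ p ∈ s, (hh Ω p * Real.exp (δ * Real.log p)) := by
          refine Finset.sum_le_sum fun s hs => ?_
          simp only [mem_filter, mem_powerset, not_le] at hs
          obtain ⟨hsP, hsR⟩ := hs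
          rw [Finset.prod_mul_distrib, ← Real.exp_sum, ← Finset.mul_sum]
          have h1 : ∑ p ∈ s, Real.log p = Real.log ((∏ p ∈ s, p : ℕ) : ℝ) := by
            push_cast
            rw [Real.log_prod]
            intro p hp
            have := (hP p (hsP hp)).pos
            positivity
          rw [h1]
          have h2 : Real.log R ≤ Real.log ((∏ p ∈ s, p : ℕ) : ℝ) := by
            apply Real.log_le_log
            · exact_mod_cast hRpos
            · exact_mod_cast hsR.le
          have h3 : 0 ≤ ∏ p ∈ s, hh Ω p := Finset.prod_nonneg fun p hp => hhn p (hsP hp)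
          have h4 : 1 ≤ Real.exp (-(δ * Real.log R)) *
              Real.exp (δ * Real.log ((∏ p ∈ s, p : ℕ) : ℝ)) := by
            rw [← Real.exp_add]
            apply Real.one_le_exp
            have := mul_le_mul_of_nonneg_left h2 hδpos.le
            linarith
          calc ∏ p ∈ s, hh Ω p = (∏ p ∈ s, hh Ω p) * 1 := (mul_one _).symm
            _ ≤ (∏ p ∈ s, hh Ω p) * (Real.exp (-(δ * Real.log R)) *
              Real.exp (δ * Real.log ((∏ p ∈ s, p : ℕ) : ℝ))) := by gcongr
            _ = _ := by ring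
      _ ≤ ∑ s ∈ P.powerset,
          Real.exp (-(δ * Real.log R)) * ∏ p ∈ s, (hh Ω p * Real.exp (δ * Real.log p)) := by
          apply Finset.sum_le_sum_of_subset_of_nonneg (Finset.filter_subset _ _)
          intro s hs _
          rw [mem_powerset] at hs
          have : 0 ≤ ∏ p ∈ s, (hh Ω p * Real.exp (δ * Real.log p)) :=
            Finset.prod_nonneg fun p hp => mul_nonneg (hhn p (hs hp)) (Real.exp_pos _).le
          positivity
  have hfactor : ∏ p ∈ P, (1 + hh Ω p * Real.exp (δ * Real.log p)) ≤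
      (∏ p ∈ P, (1 + hh Ω p)) * Real.exp (6 * r) := by
    have h1 : ∀ p ∈ P, 1 + hh Ω p * Real.exp (δ * Real.log p) ≤
        (1 + hh Ω p) * Real.exp (2 * r * δ * (Real.log p / p)) := by
      intro p hp
      have hpp := hP p hp
      have hp0 : (0 : ℝ) < p := by exact_mod_cast hpp.pos
      have hp1 : (1 : ℝ) ≤ p := by exact_mod_cast hpp.one_lt.le
      have hlogp : 0 ≤ Real.log p := Real.log_nonneg hp1
      have hκ : hh Ω p = (1 + hh Ω p) * (((Ω p).card : ℝ) / p) := by
        rw [one_add_hh Ω p hpp (hlt p hp)]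
        have h3 : (0 : ℝ) < (p : ℝ) - (Ω p).card := by
          have : ((Ω p).card : ℝ) < p := by exact_mod_cast hlt p hp
          linarith
        have h4 : 1 - ((Ω p).card : ℝ) / p = (p - (Ω p).card) / p := by field_simp
        rw [h4, inv_div, hh]
        field_simp
      have ht0 : 0 ≤ δ * Real.log p := by positivity
      have ht1 : δ * Real.log p ≤ 1 := by
        rw [hδ, one_div, inv_mul_le_iff₀ hlogz, mul_one]
        apply Real.log_le_log hp0
        exact_mod_cast hPz p hp
      have hexp : Real.exp (δ * Real.log p) - 1 ≤ 2 * (δ * Real.log p) := by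
        have hb := Real.abs_exp_sub_one_le (x := δ * Real.log p) (by rw [abs_of_nonneg ht0]; exact ht1)
        rw [abs_of_nonneg ht0] at hb
        exact (le_abs_self _).trans hb
      have hh0 := hhn p hp
      calc 1 + hh Ω p * Real.exp (δ * Real.log p)
          = (1 + hh Ω p) + hh Ω p * (Real.exp (δ * Real.log p) - 1) := by ring
        _ = (1 + hh Ω p) + (1 + hh Ω p) * (((Ω p).card : ℝ) / p) * (Real.exp (δ * Real.log p) - 1) := by
            rw [← hκ]
        _ = (1 + hh Ω p) * (1 + (((Ω p).card : ℝ) / p) * (Real.exp (δ * Real.log p) - 1)) := by ring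
        _ ≤ (1 + hh Ω p) * (1 + 2 * r * δ * (Real.log p / p)) := by
            have hc : ((Ω p).card : ℝ) ≤ r := by exact_mod_cast hr p hp
            have : (((Ω p).card : ℝ) / p) * (Real.exp (δ * Real.log p) - 1) ≤
                2 * r * δ * (Real.log p / p) := by
              calc (((Ω p).card : ℝ) / p) * (Real.exp (δ * Real.log p) - 1)
                  ≤ ((r : ℝ) / p) * (2 * (δ * Real.log p)) := by
                    apply mul_le_mul _ hexp _ (by positivity)
                    · gcongr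
                    · have := Real.add_one_le_exp (δ * Real.log p); linarith
                _ = _ := by ring
            gcongr
        _ ≤ (1 + hh Ω p) * Real.exp (2 * r * δ * (Real.log p / p)) := by
            have := Real.add_one_le_exp (2 * r * δ * (Real.log p / p))
            gcongr
            linarith
    calc ∏ p ∈ P, (1 + hh Ω p * Real.exp (δ * Real.log p))
        ≤ ∏ p ∈ P, ((1 + hh Ω p) * Real.exp (2 * r * δ * (Real.log p / p))) := by
          refine Finset.prod_le_prod (fun p hp => ?_) h1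
          have := hhn p hp
          positivity
      _ = (∏ p ∈ P, (1 + hh Ω p)) * Real.exp (2 * r * δ * ∑ p ∈ P, (Real.log p / p)) := by
          rw [Finset.prod_mul_distrib, ← Real.exp_sum, Finset.mul_sum]
      _ ≤ (∏ p ∈ P, (1 + hh Ω p)) * Real.exp (6 * r) := by
          have hpn : 0 ≤ ∏ p ∈ P, (1 + hh Ω p) := Finset.prod_nonneg fun p hp => by
            have := hhn p hp; positivity
          apply mul_le_mul_of_nonneg_left _ hpn
          apply Real.exp_le_exp.2
          have hsum : ∑ p ∈ P, Real.log p / (p : ℝ) ≤ 3 * Real.log z := by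
            calc ∑ p ∈ P, Real.log p / (p : ℝ) ≤ ∑ p ∈ Nat.primesLE z, Real.log p / (p : ℝ) := by
                  apply Finset.sum_le_sum_of_subset_of_nonneg
                  · intro p hp
                    rw [Nat.mem_primesLE]
                    exact ⟨hPz p hp, hP p hp⟩
                  · intro p hp _
                    have : (1 : ℝ) ≤ p := by exact_mod_cast (Nat.one_lt_of_mem_primesLE hp).le
                    have := Real.log_nonneg this
                    positivity
              _ ≤ Real.log z + Real.log 4 := sum_log_div_le z (by omega)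
              _ ≤ 3 * Real.log z := by
                  have h4 : Real.log 4 = 2 * Real.log 2 := by
                    rw [show (4 : ℝ) = 2 ^ 2 by norm_num, Real.log_pow]; push_cast; ring
                  have h5 : Real.log 2 ≤ Real.log z := by
                    apply Real.log_le_log (by norm_num)
                    exact_mod_cast hz
                  linarith
          calc 2 * r * δ * ∑ p ∈ P, (Real.log p / (p : ℝ)) ≤ 2 * r * δ * (3 * Real.log z) := by
                gcongr
            _ = 6 * r := by rw [hδ]; field_simp; ring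
  have hRlog : (6 * r + 1 : ℝ) ≤ δ * Real.log R := by
    have h1 : Real.log ((z ^ (6 * r + 1) : ℕ) : ℝ) ≤ Real.log R := by
      apply Real.log_le_log
      · exact_mod_cast pow_pos (by omega) _
      · exact_mod_cast hR
    push_cast at h1
    rw [Real.log_pow] at h1
    push_cast at h1
    rw [hδ, one_div, inv_mul_eq_div, le_div_iff₀ hlogz]
    exact h1
  have hpn : 0 ≤ ∏ p ∈ P, (1 + hh Ω p) := Finset.prod_nonneg fun p hp => by
    have := hhn p hp; positivity
  have htail2 : ∑ s ∈ P.powerset.filter (fun s => ¬ ∏ p ∈ s, p ≤ R), ∏ p ∈ s, hh Ω p ≤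
      (1 / 2) * ∏ p ∈ P, (1 + hh Ω p) := by
    refine htail.trans ?_
    calc Real.exp (-(δ * Real.log R)) * ∏ p ∈ P, (1 + hh Ω p * Real.exp (δ * Real.log p))
        ≤ Real.exp (-(δ * Real.log R)) * ((∏ p ∈ P, (1 + hh Ω p)) * Real.exp (6 * r)) := by
          gcongr
      _ = Real.exp (6 * r - δ * Real.log R) * ∏ p ∈ P, (1 + hh Ω p) := by
          rw [show (6 * r - δ * Real.log R : ℝ) = -(δ * Real.log R) + 6 * r by ring, Real.exp_add]
          ring
      _ ≤ (1 / 2) * ∏ p ∈ P, (1 + hh Ω p) := by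
          gcongr
          calc Real.exp (6 * r - δ * Real.log R) ≤ Real.exp (-1) := by
                apply Real.exp_le_exp.2; linarith
            _ ≤ 1 / 2 := by
                rw [Real.exp_neg, one_div]
                apply inv_anti₀ (by norm_num)
                have := Real.add_one_le_exp (1 : ℝ)
                linarith
  have hprodeq : ∏ p ∈ P, (1 - ((Ω p).card : ℝ) / p)⁻¹ = ∏ p ∈ P, (1 + hh Ω p) :=
    Finset.prod_congr rfl fun p hp => (one_add_hh Ω p (hP p hp) (hlt p hp)).symm
  rw [hprodeq]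
  linarith

/-- **Upper bound sieve**. At most `r` residue classes are forbidden modulo each `p ∈ P`. -/
theorem upper_sieve (P : Finset ℕ) (z : ℕ) (hz : 2 ≤ z) (hP : ∀ p ∈ P, p.Prime)
    (hPz : ∀ p ∈ P, p ≤ z) (Ω : ℕ → Finset ℕ) (hΩ : ∀ p ∈ P, Ω p ⊆ range p)
    (hlt : ∀ p ∈ P, (Ω p).card < p) (r : ℕ) (hr : ∀ p ∈ P, (Ω p).card ≤ r) (N : ℕ) :
    (((range N).filter (fun n => ∀ p ∈ P, n % p ∉ Ω p)).card : ℝ) ≤
      2 * N * (∏ p ∈ P, (1 - ((Ω p).card : ℝ) / p)) + (z : ℝ) ^ ((6 * r + 1) * (2 * r + 4)) := by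
  have hR : 1 ≤ z ^ (6 * r + 1) := Nat.one_le_pow _ _ (by omega)
  have hL : ∀ p ∈ P, hh Ω p ≤ 2 ^ r := by
    intro p hp
    have h1 : (1 : ℝ) ≤ (p : ℝ) - (Ω p).card := by
      have : ((Ω p).card : ℝ) + 1 ≤ p := by exact_mod_cast hlt p hp
      linarith
    calc hh Ω p ≤ (Ω p).card := by
          rw [hh]; exact div_le_self (Nat.cast_nonneg _) h1
      _ ≤ r := by exact_mod_cast hr p hp
      _ ≤ 2 ^ r := by exact_mod_cast (Nat.lt_two_pow_self).le
  have h1 := sieve_bound P hP Ω hΩ hlt r hL (z ^ (6 * r + 1)) hR N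
  have h2 := GG_lower P z hz hP hPz Ω hlt r hr (z ^ (6 * r + 1)) le_rfl
  have hpos : ∀ p ∈ P, 0 < 1 - ((Ω p).card : ℝ) / p := fun p hp =>
    one_sub_pos Ω p (hP p hp) (hlt p hp)
  have hprodpos : 0 < ∏ p ∈ P, (1 - ((Ω p).card : ℝ) / p) := Finset.prod_pos hpos
  have h3 : (N : ℝ) / GG P Ω (z ^ (6 * r + 1)) ≤ 2 * N * (∏ p ∈ P, (1 - ((Ω p).card : ℝ) / p)) := by
    rw [Finset.prod_inv_distrib] at h2
    have h4 : 0 < (1 / 2) * (∏ p ∈ P, (1 - ((Ω p).card : ℝ) / p))⁻¹ := by positivity
    calc (N : ℝ) / GG P Ω (z ^ (6 * r + 1)) ≤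
          N / ((1 / 2) * (∏ p ∈ P, (1 - ((Ω p).card : ℝ) / p))⁻¹) := by gcongr
      _ = _ := by field_simp
  refine h1.trans ?_
  have h5 : (((z ^ (6 * r + 1) : ℕ) : ℝ)) ^ (2 * r + 4) = (z : ℝ) ^ ((6 * r + 1) * (2 * r + 4)) := by
    push_cast
    rw [← pow_mul]
  rw [h5]
  linarith

end Pool.Agent.Lib.Sieve4
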