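import Mathlib
import Pool.Agent.Lib.Sieve4.Main

/-!
# Shifted primes in progressions and averages of `∏_{p ∣ g + t} (1 + c / p)`
-/

set_option autoImplicit false

open Finset Real

namespace Pool.Agent.Lib.Sieve4

/-- shifts `g ≤ G` with `g + 1` prime. -/
def gapSet (G : ℕ) : Finset ℕ := (Icc 1 G).filter (fun g => (g + 1).Prime)

/-- The multiplicative weight `∏_{p ∣ m} (1 + c/p)`. -/
noncomputable def Fc (c : ℝ) (m : ℕ) : ℝ := ∏ p ∈ m.primeFactors, (1 + c / p)

lemma Fc_one_le (c : ℝ) (hc : 0 ≤ c) (m : ℕ) : 1 ≤ Fc c m := by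
  rw [Fc]
  calc (1 : ℝ) = ∏ p ∈ m.primeFactors, (1 : ℝ) := by simp
    _ ≤ _ := by
        refine Finset.prod_le_prod (fun _ _ => by norm_num) fun p _ => ?_
        have : 0 ≤ c / (p : ℝ) := by positivity
        linarith

/-- Sieve bound for `g ≤ G` with `g + 1` prime and `D ∣ g + t`. -/
lemma ap_sieve (G t D z : ℕ) (hD : 1 ≤ D) (hz : 2 ≤ z) :
    (((gapSet G).filter (fun g => D ∣ g + t)).card : ℝ) ≤
      z + 2 * ((G / D + 1 : ℕ) : ℝ) * (∏ p ∈ (Nat.primesLE z).filter (fun p => ¬ p ∣ D), (1 - 1 / (p : ℝ)))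
        + (z : ℝ) ^ 42 := by
  classical
  set P := (Nat.primesLE z).filter (fun p => ¬ p ∣ D) with hP
  set u0 := t / D + 1 with hu0
  set Ω : ℕ → Finset ℕ := fun p =>
    {(((t : ZMod p) - 1) * ((D : ZMod p))⁻¹ - (u0 : ZMod p)).val} with hΩ
  have hPp : ∀ p ∈ P, p.Prime := fun p hp => by
    simp only [hP, mem_filter, Nat.mem_primesLE] at hp; exact hp.1.2
  have h1 := upper_sieve P z hz hPp
    (fun p hp => by simp only [hP, mem_filter, Nat.mem_primesLE] at hp; exact hp.1.1) Ω
    (fun p hp => by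
      have : NeZero p := ⟨(hPp p hp).ne_zero⟩
      simp only [hΩ, singleton_subset_iff, mem_range]
      exact ZMod.val_lt _)
    (fun p hp => by simp only [hΩ, card_singleton]; exact (hPp p hp).one_lt) 1
    (fun p hp => by simp only [hΩ, card_singleton]; exact le_rfl) (G / D + 1)
  simp only [hΩ, card_singleton, Nat.cast_one] at h1
  set A := (range (G / D + 1)).filter (fun n => ∀ p ∈ P, n % p ∉
    ({(((t : ZMod p) - 1) * ((D : ZMod p))⁻¹ - (u0 : ZMod p)).val} : Finset ℕ)) with hA
  have hcard : ((gapSet G).filter (fun g => D ∣ g + t)).card ≤ z + A.card := by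
    have hsub : (gapSet G).filter (fun g => D ∣ g + t) ⊆
        (Icc 1 z) ∪ A.image (fun v => D * (u0 + v) - t) := by
      intro g hg
      simp only [gapSet, mem_filter, mem_Icc] at hg
      obtain ⟨⟨⟨hg1, hg2⟩, hg3⟩, hg4⟩ := hg
      by_cases hgz : g ≤ z
      · exact mem_union_left _ (mem_Icc.2 ⟨hg1, hgz⟩)
      · apply mem_union_right
        push Not at hgz
        obtain ⟨u, hu⟩ := hg4
        have hDu : D * u0 ≤ D * u := by
          have h2 : t / D < u := by
            rw [Nat.div_lt_iff_lt_mul (by omega)]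
            nlinarith
          exact Nat.mul_le_mul_left D h2
        have huu : u0 ≤ u := Nat.le_of_mul_le_mul_left hDu (by omega)
        have hDu0 : t + 1 ≤ D * u0 := by
          have := Nat.lt_mul_div_succ t (show 0 < D by omega)
          rw [hu0]; exact this
        rw [mem_image]
        refine ⟨u - u0, ?_, ?_⟩
        · simp only [hA, mem_filter, mem_range]
          constructor
          · have h3 : D * (u - u0) ≤ G := by
              rw [Nat.mul_sub]; omega
            have h4 : u - u0 ≤ G / D := by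
              rw [Nat.le_div_iff_mul_le (by omega), mul_comm]; exact h3
            omega
          · intro p hp hmem
            have hpp := hPp p hp
            have : NeZero p := ⟨hpp.ne_zero⟩
            have : Fact p.Prime := ⟨hpp⟩
            simp only [hP, mem_filter, Nat.mem_primesLE] at hp
            rw [mem_singleton] at hmem
            have hDne : (D : ZMod p) ≠ 0 := by
              rw [Ne, ZMod.natCast_eq_zero_iff]; exact hp.2
            have h5 : (((u - u0 : ℕ)) : ZMod p) =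
                ((t : ZMod p) - 1) * ((D : ZMod p))⁻¹ - (u0 : ZMod p) := by
              have := congrArg (fun m : ℕ => (m : ZMod p)) hmem
              simpa using this
            have h6 : ((g + 1 : ℕ) : ZMod p) = 0 := by
              have h7 : ((g + t : ℕ) : ZMod p) = D * u := by rw [hu]; push_cast; ring
              push_cast [Nat.cast_sub huu] at h5 h7 ⊢
              have h8 : (u : ZMod p) = ((t : ZMod p) - 1) * ((D : ZMod p))⁻¹ := by
                linear_combination h5
              have h9 : (D : ZMod p) * u = (t : ZMod p) - 1 := by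
                rw [h8]; field_simp
              linear_combination h7 + h9
            rw [ZMod.natCast_eq_zero_iff] at h6
            rcases (Nat.dvd_prime hg3).1 h6 with h | h
            · have := hpp.two_le; omega
            · omega
        · rw [Nat.add_sub_of_le huu, ← hu]; omega
    calc _ ≤ ((Icc 1 z) ∪ A.image (fun v => D * (u0 + v) - t)).card := Finset.card_le_card hsub
      _ ≤ (Icc 1 z).card + (A.image (fun v => D * (u0 + v) - t)).card := Finset.card_union_le _ _
      _ ≤ z + A.card := by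
          have := Finset.card_image_le (s := A) (f := fun v => D * (u0 + v) - t)
          simp only [Nat.card_Icc]
          omega
  have hcard' : (((gapSet G).filter (fun g => D ∣ g + t)).card : ℝ) ≤ z + A.card := by
    exact_mod_cast hcard
  have h42 : (6 * 1 + 1) * (2 * 1 + 4) = 42 := by norm_num
  rw [h42] at h1
  linarith

/-- `#{g ≤ G : g + 1 prime, D ∣ g + t} ≤ C G / (φ(D) log G)` for `D = ∏ s`, `D^2 ≤ G`. -/
lemma ap_count : ∃ C : ℝ, 0 < C ∧ ∀ (G t : ℕ) (s : Finset ℕ), 2 ≤ G → (∀ p ∈ s, p.Prime) →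
    (∏ p ∈ s, p) ^ 2 ≤ G →
    (((gapSet G).filter (fun g => (∏ p ∈ s, p) ∣ g + t)).card : ℝ) ≤
      C * (G / Real.log G) * ∏ p ∈ s, (1 / ((p : ℝ) - 1)) := by
  classical
  refine ⟨680 + 2 ^ 168 * (168 * 2), by norm_num, ?_⟩
  intro G t s hG hs hD2
  set D := ∏ p ∈ s, p with hD
  have hD1 : 1 ≤ D := Nat.one_le_iff_ne_zero.2 (Finset.prod_ne_zero_iff.2 fun p hp => (hs p hp).ne_zero)
  have hG0 : (0 : ℝ) < G := by exact_mod_cast (by omega : 0 < G)
  have hG1 : (1 : ℝ) < G := by exact_mod_cast (by omega : 1 < G)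
  have hlog : 0 < Real.log G := Real.log_pos hG1
  have hDr : (0 : ℝ) < D := by exact_mod_cast hD1
  -- 1/D ≤ ∏ 1/(p-1)
  have hpm : ∀ p ∈ s, (0 : ℝ) < (p : ℝ) - 1 := fun p hp => by
    have : (1 : ℝ) < p := by exact_mod_cast (hs p hp).one_lt
    linarith
  have hphi : 1 / (D : ℝ) ≤ ∏ p ∈ s, (1 / ((p : ℝ) - 1)) := by
    rw [hD]
    push_cast
    rw [one_div, ← Finset.prod_inv_distrib]
    refine Finset.prod_le_prod (fun _ _ => by positivity) fun p hp => ?_
    rw [one_div]
    exact inv_anti₀ (hpm p hp) (by linarith)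
  have hphi0 : 0 < ∏ p ∈ s, (1 / ((p : ℝ) - 1)) := Finset.prod_pos fun p hp => by
    have := hpm p hp; positivity
  have hDG : (D : ℝ) * D ≤ G := by
    have : D * D ≤ G := by rw [← sq]; exact hD2
    exact_mod_cast this
  by_cases hcase : (G : ℝ) < 2 ^ 168
  · have h1 : (((gapSet G).filter (fun g => D ∣ g + t)).card : ℝ) ≤ G := by
      have h2 : ((gapSet G).filter (fun g => D ∣ g + t)).card ≤ (Icc 1 G).card :=
        Finset.card_le_card ((Finset.filter_subset _ _).trans (Finset.filter_subset _ _))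
      simp only [Nat.card_Icc, Nat.add_sub_cancel] at h2
      exact_mod_cast h2
    have h2 : Real.log G ≤ 168 * 2 := by
      have h3 := Real.log_le_log hG0 hcase.le
      rw [Real.log_pow] at h3
      have := Real.log_two_lt_d9
      push_cast at h3
      linarith
    have h3 : (D : ℝ) ≤ 2 ^ 168 := by
      have : (1 : ℝ) ≤ D := by exact_mod_cast hD1
      nlinarith
    calc (((gapSet G).filter (fun g => D ∣ g + t)).card : ℝ) ≤ G := h1
      _ = (D * Real.log G) * (G / Real.log G) * (1 / D) := by field_simp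
      _ ≤ (2 ^ 168 * (168 * 2)) * (G / Real.log G) * ∏ p ∈ s, (1 / ((p : ℝ) - 1)) := by
          gcongr
      _ ≤ _ := by
          have : (0 : ℝ) < G / Real.log G := by positivity
          gcongr
          norm_num
  · push Not at hcase
    set y : ℝ := (G : ℝ) ^ (1 / 168 : ℝ) with hy
    have hy2 : 2 ≤ y := by
      have h1 : (2 : ℝ) = ((2 : ℝ) ^ 168) ^ (1 / 168 : ℝ) := by
        rw [← Real.rpow_natCast, ← Real.rpow_mul (by norm_num)]
        norm_num
      rw [h1, hy]
      exact Real.rpow_le_rpow (by positivity) hcase (by positivity)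
    set z : ℕ := ⌊y⌋₊ with hz
    have hz2 : 2 ≤ z := Nat.le_floor (by exact_mod_cast hy2)
    have hzy : (z : ℝ) ≤ y := Nat.floor_le (by linarith)
    have hzy' : y < z + 1 := Nat.lt_floor_add_one y
    have hzE : (z : ℝ) ^ 42 ≤ (G : ℝ) ^ (1 / 4 : ℝ) := by
      calc (z : ℝ) ^ 42 ≤ y ^ 42 := pow_le_pow_left₀ (Nat.cast_nonneg _) hzy 42
        _ = (G : ℝ) ^ (1 / 4 : ℝ) := by
            rw [hy, ← Real.rpow_natCast, ← Real.rpow_mul hG0.le]
            norm_num
    have hzx : (z : ℝ) ≤ (G : ℝ) ^ (1 / 4 : ℝ) := by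
      refine le_trans ?_ hzE
      have : (1 : ℝ) ≤ z := by exact_mod_cast (by omega : 1 ≤ z)
      exact le_self_pow₀ this (by norm_num)
    have hlogz : Real.log G / 168 ≤ Real.log (z + 1) := by
      have h1 : Real.log y = Real.log G / 168 := by
        rw [hy, Real.log_rpow hG0]; ring
      rw [← h1]
      exact Real.log_le_log (by linarith) hzy'.le
    have hmain := ap_sieve G t D z hD1 hz2
    -- product
    have hpos : ∀ p ∈ Nat.primesLE z, 0 < 1 - 1 / (p : ℝ) := by
      intro p hp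
      have hp1 := Nat.two_le_of_mem_primesLE hp
      have hp2 : (2 : ℝ) ≤ p := by exact_mod_cast hp1
      have : 1 / (p : ℝ) ≤ 1 / 2 := by
        apply one_div_le_one_div_of_le <;> linarith
      linarith
    have hQ0 : 0 < ∏ p ∈ s, (1 - 1 / (p : ℝ)) := Finset.prod_pos fun p hp => by
      have hp2 : (2 : ℝ) ≤ p := by exact_mod_cast (hs p hp).two_le
      have : 1 / (p : ℝ) ≤ 1 / 2 := by
        apply one_div_le_one_div_of_le <;> linarith
      linarith
    have hprod : (∏ p ∈ (Nat.primesLE z).filter (fun p => ¬ p ∣ D), (1 - 1 / (p : ℝ))) *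
        ∏ p ∈ s, (1 - 1 / (p : ℝ)) ≤ 168 / Real.log G := by
      have h1 : ∏ p ∈ s, (1 - 1 / (p : ℝ)) ≤
          ∏ p ∈ (Nat.primesLE z).filter (fun p => p ∣ D), (1 - 1 / (p : ℝ)) := by
        have hsub : (Nat.primesLE z).filter (fun p => p ∣ D) ⊆ s := by
          intro p hp
          simp only [mem_filter, Nat.mem_primesLE] at hp
          obtain ⟨q, hq, hpq⟩ := (Prime.dvd_finsetProd_iff hp.1.2.prime _).1 hp.2
          rwa [(Nat.prime_dvd_prime_iff_eq hp.1.2 (hs q hq)).1 hpq]
        rw [← Finset.prod_sdiff hsub]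
        apply mul_le_of_le_one_left
        · exact Finset.prod_nonneg fun p hp => (hpos p (mem_filter.1 hp).1).le
        · apply Finset.prod_le_one
          · intro p hp
            have hp2 : (2 : ℝ) ≤ p := by exact_mod_cast (hs p (mem_sdiff.1 hp).1).two_le
            have : 1 / (p : ℝ) ≤ 1 / 2 := by
              apply one_div_le_one_div_of_le <;> linarith
            linarith
          · intro p hp
            have : 0 ≤ 1 / (p : ℝ) := by positivity
            linarith
      have h2 : (∏ p ∈ (Nat.primesLE z).filter (fun p => ¬ p ∣ D), (1 - 1 / (p : ℝ))) *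
          ∏ p ∈ (Nat.primesLE z).filter (fun p => p ∣ D), (1 - 1 / (p : ℝ)) =
          ∏ p ∈ Nat.primesLE z, (1 - 1 / (p : ℝ)) := by
        rw [mul_comm, Finset.prod_filter_mul_prod_filter_not]
      have h3 : 0 ≤ ∏ p ∈ (Nat.primesLE z).filter (fun p => ¬ p ∣ D), (1 - 1 / (p : ℝ)) :=
        Finset.prod_nonneg fun p hp => (hpos p (mem_filter.1 hp).1).le
      calc _ ≤ (∏ p ∈ (Nat.primesLE z).filter (fun p => ¬ p ∣ D), (1 - 1 / (p : ℝ))) *
          ∏ p ∈ (Nat.primesLE z).filter (fun p => p ∣ D), (1 - 1 / (p : ℝ)) :=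
            mul_le_mul_of_nonneg_left h1 h3
        _ = _ := h2
        _ ≤ 1 / Real.log (z + 1) := prod_one_sub_inv_le z (by omega)
        _ ≤ 168 / Real.log G := by
            rw [div_le_div_iff₀ (lt_of_lt_of_le (by positivity) hlogz) hlog, one_mul]
            rw [div_le_iff₀ (by norm_num)] at hlogz
            linarith
    have hprod' : (∏ p ∈ (Nat.primesLE z).filter (fun p => ¬ p ∣ D), (1 - 1 / (p : ℝ))) ≤
        168 / Real.log G / ∏ p ∈ s, (1 - 1 / (p : ℝ)) := by
      rw [le_div_iff₀ hQ0]; exact hprod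
    have hQD : 1 / (D : ℝ) / ∏ p ∈ s, (1 - 1 / (p : ℝ)) = ∏ p ∈ s, (1 / ((p : ℝ) - 1)) := by
      rw [hD]
      push_cast
      rw [one_div, ← Finset.prod_inv_distrib, ← Finset.prod_div_distrib]
      refine Finset.prod_congr rfl fun p hp => ?_
      have h1 := hpm p hp
      have h2 : (0 : ℝ) < p := by linarith
      field_simp
    have hN : ((G / D + 1 : ℕ) : ℝ) ≤ 2 * (G / D) := by
      push_cast
      have h1 : ((G / D : ℕ) : ℝ) ≤ (G : ℝ) / D := Nat.cast_div_le
      have h2 : 1 ≤ (G : ℝ) / D := by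
        rw [le_div_iff₀ hDr, one_mul]
        have : (1 : ℝ) ≤ D := by exact_mod_cast hD1
        nlinarith
      linarith
    have hG4 : (G : ℝ) ^ (1 / 4 : ℝ) ≤ 4 * (G / Real.log G) * (1 / D) := by
      have h1 := Real.log_le_rpow_div hG0.le (ε := 1 / 4) (by norm_num)
      have h2 : Real.log G ≤ 4 * (G : ℝ) ^ (1 / 4 : ℝ) := by
        calc Real.log G ≤ (G : ℝ) ^ (1 / 4 : ℝ) / (1 / 4) := h1
          _ = _ := by ring
      have h3 : (G : ℝ) ^ (1 / 4 : ℝ) * (G : ℝ) ^ (1 / 4 : ℝ) = (G : ℝ) ^ (1 / 2 : ℝ) := by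
        rw [← Real.rpow_add hG0]; norm_num
      have h4 : (G : ℝ) ^ (1 / 2 : ℝ) * (G : ℝ) ^ (1 / 2 : ℝ) = G := by
        rw [← Real.rpow_add hG0]; norm_num
      have h5 : (D : ℝ) ≤ (G : ℝ) ^ (1 / 2 : ℝ) := by
        by_contra hcon
        push Not at hcon
        have h6 : 0 < (G : ℝ) ^ (1 / 2 : ℝ) := by positivity
        nlinarith
      have h7 : 0 < (G : ℝ) ^ (1 / 4 : ℝ) := by positivity
      rw [show 4 * ((G : ℝ) / Real.log G) * (1 / D) = (4 * G) / (Real.log G * D) by field_simp,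
        le_div_iff₀ (by positivity)]
      calc (G : ℝ) ^ (1 / 4 : ℝ) * (Real.log G * D)
          ≤ (G : ℝ) ^ (1 / 4 : ℝ) * ((4 * (G : ℝ) ^ (1 / 4 : ℝ)) * (G : ℝ) ^ (1 / 2 : ℝ)) := by
            gcongr
        _ = 4 * (((G : ℝ) ^ (1 / 4 : ℝ) * (G : ℝ) ^ (1 / 4 : ℝ)) * (G : ℝ) ^ (1 / 2 : ℝ)) := by ring
        _ = 4 * G := by rw [h3, h4]
    have hprodnn : 0 ≤ (∏ p ∈ (Nat.primesLE z).filter (fun p => ¬ p ∣ D), (1 - 1 / (p : ℝ))) :=
      Finset.prod_nonneg fun p hp => (hpos p (mem_filter.1 hp).1).le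
    calc (((gapSet G).filter (fun g => D ∣ g + t)).card : ℝ)
        ≤ z + 2 * ((G / D + 1 : ℕ) : ℝ) *
          (∏ p ∈ (Nat.primesLE z).filter (fun p => ¬ p ∣ D), (1 - 1 / (p : ℝ))) + (z : ℝ) ^ 42 := hmain
      _ ≤ (G : ℝ) ^ (1 / 4 : ℝ) + 2 * (2 * (G / D)) * (168 / Real.log G / ∏ p ∈ s, (1 - 1 / (p : ℝ))) +
          (G : ℝ) ^ (1 / 4 : ℝ) := by gcongr
      _ = 2 * (G : ℝ) ^ (1 / 4 : ℝ) + 672 * (G / Real.log G) *
          (1 / (D : ℝ) / ∏ p ∈ s, (1 - 1 / (p : ℝ))) := by field_simp; ring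
      _ ≤ 2 * (4 * (G / Real.log G) * (1 / D)) + 672 * (G / Real.log G) *
          ∏ p ∈ s, (1 / ((p : ℝ) - 1)) := by
          rw [hQD]; gcongr
      _ ≤ 2 * (4 * (G / Real.log G) * ∏ p ∈ s, (1 / ((p : ℝ) - 1))) + 672 * (G / Real.log G) *
          ∏ p ∈ s, (1 / ((p : ℝ) - 1)) := by
          have : (0 : ℝ) < G / Real.log G := by positivity
          gcongr
      _ = 680 * (G / Real.log G) * ∏ p ∈ s, (1 / ((p : ℝ) - 1)) := by ring
      _ ≤ _ := by
          have : (0 : ℝ) < G / Real.log G := by positivity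
          gcongr
          norm_num

end Pool.Agent.Lib.Sieve4
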