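import Mathlib
import Pool.Agent.Lib.Sieve4.APCount

/-!
# The average of `∏_{p ∣ g + t} (1 + c / p)` over `g ≤ G` with `g + 1` prime
-/

set_option autoImplicit false

open Finset Real

namespace Pool.Agent.Lib.Sieve4

lemma sum_telescope (y : ℕ) (hy : 1 ≤ y) :
    ∑ n ∈ Icc 2 y, 1 / ((n : ℝ) * (n - 1)) = 1 - 1 / y := by
  induction y, hy using Nat.le_induction with
  | base => simp
  | succ y hy ih =>
    rw [← Finset.insert_Icc_right_eq_Icc_add_one (by omega), Finset.sum_insert (by simp), ih]
    have : (0 : ℝ) < y := by exact_mod_cast hy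
    push_cast
    rw [show (y : ℝ) + 1 - 1 = y by ring]
    field_simp
    ring

lemma sum_primes_le_one (y : ℕ) :
    ∑ p ∈ Nat.primesLE y, 1 / ((p : ℝ) * (p - 1)) ≤ 1 := by
  rcases Nat.eq_zero_or_pos y with rfl | hy
  · simp
  · calc ∑ p ∈ Nat.primesLE y, 1 / ((p : ℝ) * (p - 1)) ≤ ∑ n ∈ Icc 2 y, 1 / ((n : ℝ) * (n - 1)) := by
          apply Finset.sum_le_sum_of_subset_of_nonneg
          · intro p hp
            rw [mem_Icc]
            exact ⟨Nat.two_le_of_mem_primesLE hp, Nat.le_of_mem_primesLE hp⟩
          · intro n hn _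
            rw [mem_Icc] at hn
            have : (2 : ℝ) ≤ n := by exact_mod_cast hn.1
            have : (0 : ℝ) ≤ (n : ℝ) - 1 := by linarith
            positivity
      _ = 1 - 1 / y := sum_telescope y hy
      _ ≤ 1 := by
          have : 0 ≤ 1 / (y : ℝ) := by positivity
          linarith

/-- the large prime factors contribute a bounded factor. -/
lemma large_part (c : ℝ) (hc : 0 ≤ c) (m y : ℕ) (hm : 1 ≤ m) (hy : 2 ≤ y) :
    ∏ p ∈ m.primeFactors.filter (fun p => ¬ p ≤ y), (1 + c / (p : ℝ)) ≤
      Real.exp (c * Real.log m / (y + 1)) := by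
  set T := m.primeFactors.filter (fun p => ¬ p ≤ y) with hT
  have hy0 : (0 : ℝ) < (y : ℝ) + 1 := by positivity
  have h1 : ∏ p ∈ T, (1 + c / (p : ℝ)) ≤ Real.exp (T.card * (c / (y + 1))) := by
    calc ∏ p ∈ T, (1 + c / (p : ℝ)) ≤ ∏ p ∈ T, Real.exp (c / (y + 1)) := by
          refine Finset.prod_le_prod (fun p _ => by positivity) fun p hp => ?_
          have h2 : (y : ℝ) + 1 ≤ p := by
            simp only [hT, mem_filter, not_le] at hp
            exact_mod_cast hp.2
          calc 1 + c / (p : ℝ) ≤ 1 + c / (y + 1) := by gcongr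
            _ ≤ _ := by
                have := Real.add_one_le_exp (c / ((y : ℝ) + 1))
                linarith
      _ = _ := by rw [Finset.prod_const, ← Real.exp_nat_mul]
  refine h1.trans (Real.exp_le_exp.2 ?_)
  have hcard : (T.card : ℝ) ≤ Real.log m := by
    have h2 : (y + 1) ^ T.card ≤ m := by
      calc (y + 1) ^ T.card = ∏ p ∈ T, (y + 1) := by rw [Finset.prod_const]
        _ ≤ ∏ p ∈ T, p := Finset.prod_le_prod' fun p hp => by
            simp only [hT, mem_filter, not_le] at hp
            exact hp.2
        _ ≤ ∏ p ∈ m.primeFactors, p := by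
            apply Finset.prod_le_prod_of_subset_of_one_le' (Finset.filter_subset _ _)
            intro p hp _
            exact (Nat.prime_of_mem_primeFactors hp).one_lt.le
        _ ≤ m := Nat.le_of_dvd (by omega) (Nat.prod_primeFactors_dvd m)
    have h3 : (T.card : ℝ) * Real.log (y + 1) ≤ Real.log m := by
      have h4 : Real.log (((y + 1) ^ T.card : ℕ) : ℝ) ≤ Real.log m := by
        apply Real.log_le_log
        · positivity
        · exact_mod_cast h2
      push_cast at h4
      rwa [Real.log_pow] at h4
    have h5 : 1 ≤ Real.log ((y : ℝ) + 1) := by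
      rw [Real.le_log_iff_exp_le hy0]
      have h6 := Real.exp_one_lt_d9
      have h7 : (2 : ℝ) ≤ y := by exact_mod_cast hy
      linarith
    have h8 : (0 : ℝ) ≤ T.card := Nat.cast_nonneg _
    nlinarith
  calc (T.card : ℝ) * (c / (y + 1)) ≤ Real.log m * (c / (y + 1)) := by gcongr
    _ = _ := by ring

/-- expansion of the small part. -/
lemma small_part (c : ℝ) (m y : ℕ) (hm : m ≠ 0) :
    ∏ p ∈ m.primeFactors.filter (fun p => p ≤ y), (1 + c / (p : ℝ)) =
      ∑ s ∈ (Nat.primesLE y).powerset, if (∏ p ∈ s, p) ∣ m then ∏ p ∈ s, (c / (p : ℝ)) else 0 := by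
  classical
  rw [Finset.prod_one_add, ← Finset.sum_filter]
  refine Finset.sum_congr ?_ fun _ _ => rfl
  ext s
  simp only [mem_powerset, mem_filter]
  constructor
  · intro h
    constructor
    · intro p hp
      have := h hp
      simp only [mem_filter, Nat.mem_primeFactors] at this
      rw [Nat.mem_primesLE]; exact ⟨this.2, this.1.1⟩
    · apply Finset.prod_primes_dvd
      · intro p hp
        have := h hp
        simp only [mem_filter, Nat.mem_primeFactors] at this
        exact this.1.1.prime
      · intro p hp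
        have := h hp
        simp only [mem_filter, Nat.mem_primeFactors] at this
        exact this.1.2.1
  · rintro ⟨h1, h2⟩ p hp
    have h3 := h1 hp
    rw [Nat.mem_primesLE] at h3
    simp only [mem_filter, Nat.mem_primeFactors]
    exact ⟨⟨h3.2, (Finset.dvd_prod_of_mem _ hp).trans h2, hm⟩, h3.1⟩

lemma prod_subset_primes_sq_le (y G : ℕ) (hG : 2 ≤ G) (hy : (y : ℝ) ≤ Real.log G / 4)
    (s : Finset ℕ) (hs : s ⊆ Nat.primesLE y) : (∏ p ∈ s, p) ^ 2 ≤ G := by
  have h1 : ∏ p ∈ s, p ≤ 4 ^ y := by
    calc ∏ p ∈ s, p ≤ ∏ p ∈ Nat.primesLE y, p := by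
          apply Finset.prod_le_prod_of_subset_of_one_le' hs
          intro p hp _
          exact (Nat.one_lt_of_mem_primesLE hp).le
      _ = primorial y := (primorial_eq_prod_primesLE y).symm
      _ ≤ 4 ^ y := primorial_le_four_pow y
  have h2 : (∏ p ∈ s, p) ^ 2 ≤ 16 ^ y := by
    calc (∏ p ∈ s, p) ^ 2 ≤ (4 ^ y) ^ 2 := Nat.pow_le_pow_left h1 2
      _ = 16 ^ y := by rw [← pow_mul, mul_comm, pow_mul]; norm_num
  refine h2.trans ?_
  have hG0 : (0 : ℝ) < G := by exact_mod_cast (by omega : 0 < G)
  have h3 : ((16 : ℝ)) ^ y ≤ G := by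
    rw [← Real.log_le_log_iff (by positivity) hG0, Real.log_pow]
    have h4 : Real.log 16 ≤ 4 := by
      rw [show (16 : ℝ) = 2 ^ 4 by norm_num, Real.log_pow]
      have := Real.log_two_lt_d9
      push_cast; linarith
    have h5 : 0 ≤ (y : ℝ) := Nat.cast_nonneg _
    nlinarith
  exact_mod_cast h3

/-- **Average of the singular weight over shifted primes.** -/
theorem avg_Fc (c : ℝ) (hc : 0 ≤ c) (k : ℕ) : ∃ C : ℝ, 0 < C ∧ ∀ G t : ℕ, 2 ≤ G → t ≤ k * G →
    ∑ g ∈ gapSet G, Fc c (g + t) ≤ C * (G / Real.log G) := by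
  classical
  obtain ⟨C0, hC0, hap⟩ := ap_count
  obtain ⟨M, hM⟩ : ∃ M : ℕ, M = (k + 1) * 3000 := ⟨_, rfl⟩
  refine ⟨8 * (1 + c) ^ M + Real.exp (4 * c * (k + 1)) * (C0 * Real.exp c), by positivity, ?_⟩
  intro G t hG ht
  have hG0 : (0 : ℝ) < G := by exact_mod_cast (by omega : 0 < G)
  have hG1 : (1 : ℝ) < G := by exact_mod_cast (by omega : 1 < G)
  have hlog : 0 < Real.log G := Real.log_pos hG1
  have hGl : 0 < (G : ℝ) / Real.log G := by positivity
  by_cases hcase : (G : ℝ) < Real.exp 8
  · have hG3000 : G ≤ 3000 := by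
      have h1 : Real.exp 8 < 3000 := by
        have h2 : Real.exp 8 = (Real.exp 1) ^ 8 := by rw [← Real.exp_nat_mul]; norm_num
        rw [h2]
        have h3 := Real.exp_one_lt_d9
        calc Real.exp 1 ^ 8 < 2.7182818286 ^ 8 := by gcongr
          _ < 3000 := by norm_num
      have : (G : ℝ) < 3000 := hcase.trans h1
      exact_mod_cast this.le
    have hlog8 : Real.log G ≤ 8 := by
      have := (Real.log_lt_iff_lt_exp hG0).2 hcase
      linarith
    have h1 : ∀ g ∈ gapSet G, Fc c (g + t) ≤ (1 + c) ^ M := by
      intro g hg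
      simp only [gapSet, mem_filter, mem_Icc] at hg
      rw [Fc]
      calc ∏ p ∈ (g + t).primeFactors, (1 + c / (p : ℝ))
          ≤ ∏ p ∈ (g + t).primeFactors, (1 + c) := by
            refine Finset.prod_le_prod (fun p _ => by positivity) fun p hp => ?_
            have : (1 : ℝ) ≤ p := by exact_mod_cast (Nat.prime_of_mem_primeFactors hp).one_lt.le
            have := div_le_self hc this
            linarith
        _ = (1 + c) ^ (g + t).primeFactors.card := by rw [Finset.prod_const]
        _ ≤ (1 + c) ^ M := by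
            apply pow_le_pow_right₀ (by linarith)
            calc (g + t).primeFactors.card ≤ (Icc 1 (g + t)).card := by
                  apply Finset.card_le_card
                  intro p hp
                  rw [mem_Icc]
                  exact ⟨(Nat.prime_of_mem_primeFactors hp).one_lt.le,
                    Nat.le_of_mem_primeFactors hp⟩
              _ = g + t := by simp
              _ ≤ M := by
                  rw [hM]
                  have h5 : t ≤ k * 3000 := ht.trans (Nat.mul_le_mul_left k hG3000)
                  have h6 : g ≤ 3000 := hg.1.2.trans hG3000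
                  calc g + t ≤ 3000 + k * 3000 := Nat.add_le_add h6 h5
                    _ = (k + 1) * 3000 := by ring
    calc ∑ g ∈ gapSet G, Fc c (g + t) ≤ ∑ g ∈ gapSet G, (1 + c) ^ M :=
          Finset.sum_le_sum h1
      _ = (gapSet G).card * (1 + c) ^ M := by rw [Finset.sum_const, nsmul_eq_mul]
      _ ≤ G * (1 + c) ^ M := by
          gcongr
          have : (gapSet G).card ≤ (Icc 1 G).card := Finset.card_le_card (Finset.filter_subset _ _)
          simpa using this
      _ = (Real.log G * (1 + c) ^ M) * (G / Real.log G) := by field_simp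
      _ ≤ (8 * (1 + c) ^ M + Real.exp (4 * c * (k + 1)) * (C0 * Real.exp c)) *
          (G / Real.log G) := by
          apply mul_le_mul_of_nonneg_right _ hGl.le
          have : 0 ≤ Real.exp (4 * c * (k + 1)) * (C0 * Real.exp c) := by positivity
          have h2 : Real.log G * (1 + c) ^ M ≤ 8 * (1 + c) ^ M := by
            gcongr
          linarith
  · push Not at hcase
    have hlog8 : 8 ≤ Real.log G := (Real.le_log_iff_exp_le hG0).2 hcase
    set y := ⌊Real.log G / 4⌋₊ with hy
    have hy2 : 2 ≤ y := Nat.le_floor (by push_cast; linarith)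
    have hyle : (y : ℝ) ≤ Real.log G / 4 := Nat.floor_le (by positivity)
    have hylt : Real.log G / 4 < y + 1 := Nat.lt_floor_add_one _
    have hpoint : ∀ g ∈ gapSet G, Fc c (g + t) ≤ Real.exp (4 * c * (k + 1)) *
        ∑ s ∈ (Nat.primesLE y).powerset,
          if (∏ p ∈ s, p) ∣ (g + t) then ∏ p ∈ s, (c / (p : ℝ)) else 0 := by
      intro g hg
      simp only [gapSet, mem_filter, mem_Icc] at hg
      have hm : 1 ≤ g + t := by omega
      rw [Fc, ← Finset.prod_filter_mul_prod_filter_not _ (fun p => p ≤ y), small_part c _ _ (by omega),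
        mul_comm]
      apply mul_le_mul_of_nonneg_right
      · refine (large_part c hc (g + t) y hm hy2).trans (Real.exp_le_exp.2 ?_)
        have h1 : Real.log ((g + t : ℕ) : ℝ) ≤ (k + 1) * Real.log G := by
          have h2 : ((g + t : ℕ) : ℝ) ≤ (k + 1) * G := by
            have : g + t ≤ (k + 1) * G := by nlinarith
            exact_mod_cast this
          have h3 : Real.log ((g + t : ℕ) : ℝ) ≤ Real.log ((k + 1) * G) := by
            apply Real.log_le_log _ h2
            exact_mod_cast (by omega : 0 < g + t)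
          rw [Real.log_mul (by positivity) hG0.ne'] at h3
          have h4 : Real.log ((k : ℝ) + 1) ≤ k := by
            have := Real.log_le_sub_one_of_pos (show (0 : ℝ) < (k : ℝ) + 1 by positivity)
            linarith
          have h5 : (0 : ℝ) ≤ k := Nat.cast_nonneg _
          nlinarith
        have hy0 : (0 : ℝ) < (y : ℝ) + 1 := by positivity
        rw [div_le_iff₀ hy0]
        calc c * Real.log ((g + t : ℕ) : ℝ) ≤ c * ((k + 1) * Real.log G) := by gcongr
          _ = 4 * c * (k + 1) * (Real.log G / 4) := by ring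
          _ ≤ 4 * c * (k + 1) * (y + 1) := by gcongr
      · apply Finset.sum_nonneg
        intro s _
        split_ifs
        · exact Finset.prod_nonneg fun p _ => by positivity
        · exact le_rfl
    have hexch : ∑ g ∈ gapSet G, ∑ s ∈ (Nat.primesLE y).powerset,
          (if (∏ p ∈ s, p) ∣ (g + t) then ∏ p ∈ s, (c / (p : ℝ)) else 0) ≤
          C0 * Real.exp c * (G / Real.log G) := by
      rw [Finset.sum_comm]
      calc ∑ s ∈ (Nat.primesLE y).powerset, ∑ g ∈ gapSet G,
            (if (∏ p ∈ s, p) ∣ (g + t) then ∏ p ∈ s, (c / (p : ℝ)) else 0)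
          ≤ ∑ s ∈ (Nat.primesLE y).powerset,
            C0 * (G / Real.log G) * ∏ p ∈ s, (c * (1 / ((p : ℝ) * (p - 1)))) := by
            refine Finset.sum_le_sum fun s hs => ?_
            rw [mem_powerset] at hs
            rw [← Finset.sum_filter, Finset.sum_const, nsmul_eq_mul]
            have hsp : ∀ p ∈ s, p.Prime := fun p hp => (Nat.mem_primesLE.1 (hs hp)).2
            have h1 := hap G t s hG hsp (prod_subset_primes_sq_le y G hG hyle s hs)
            have h2 : 0 ≤ ∏ p ∈ s, (c / (p : ℝ)) := Finset.prod_nonneg fun p _ => by positivity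
            calc (((gapSet G).filter (fun g => (∏ p ∈ s, p) ∣ g + t)).card : ℝ) *
                  ∏ p ∈ s, (c / (p : ℝ))
                ≤ (C0 * (G / Real.log G) * ∏ p ∈ s, (1 / ((p : ℝ) - 1))) *
                  ∏ p ∈ s, (c / (p : ℝ)) := mul_le_mul_of_nonneg_right h1 h2
              _ = C0 * (G / Real.log G) * ∏ p ∈ s, (c * (1 / ((p : ℝ) * (p - 1)))) := by
                  rw [mul_assoc, ← Finset.prod_mul_distrib]
                  congr 1
                  refine Finset.prod_congr rfl fun p hp => ?_
                  have : (1 : ℝ) < p := by exact_mod_cast (hsp p hp).one_lt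
                  have h3 : (p : ℝ) - 1 ≠ 0 := by linarith
                  have h4 : (p : ℝ) ≠ 0 := by linarith
                  field_simp
        _ = C0 * (G / Real.log G) * ∏ p ∈ Nat.primesLE y, (1 + c * (1 / ((p : ℝ) * (p - 1)))) := by
            rw [Finset.prod_one_add, Finset.mul_sum]
        _ ≤ C0 * (G / Real.log G) * Real.exp c := by
            apply mul_le_mul_of_nonneg_left _ (by positivity)
            calc ∏ p ∈ Nat.primesLE y, (1 + c * (1 / ((p : ℝ) * (p - 1))))
                ≤ ∏ p ∈ Nat.primesLE y, Real.exp (c * (1 / ((p : ℝ) * (p - 1)))) := by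
                  refine Finset.prod_le_prod (fun p hp => ?_) fun p hp => ?_
                  · have : (1 : ℝ) < p := by exact_mod_cast (Nat.one_lt_of_mem_primesLE hp)
                    have h3 : 0 ≤ (p : ℝ) - 1 := by linarith
                    positivity
                  · have := Real.add_one_le_exp (c * (1 / ((p : ℝ) * (p - 1))))
                    linarith
              _ = Real.exp (c * ∑ p ∈ Nat.primesLE y, 1 / ((p : ℝ) * (p - 1))) := by
                  rw [← Real.exp_sum, Finset.mul_sum]
              _ ≤ Real.exp c := by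
                  apply Real.exp_le_exp.2
                  have := mul_le_mul_of_nonneg_left (sum_primes_le_one y) hc
                  linarith
        _ = _ := by ring
    calc ∑ g ∈ gapSet G, Fc c (g + t) ≤ ∑ g ∈ gapSet G, Real.exp (4 * c * (k + 1)) *
        ∑ s ∈ (Nat.primesLE y).powerset,
          (if (∏ p ∈ s, p) ∣ (g + t) then ∏ p ∈ s, (c / (p : ℝ)) else 0) := Finset.sum_le_sum hpoint
      _ = Real.exp (4 * c * (k + 1)) * ∑ g ∈ gapSet G, ∑ s ∈ (Nat.primesLE y).powerset,
          (if (∏ p ∈ s, p) ∣ (g + t) then ∏ p ∈ s, (c / (p : ℝ)) else 0) := by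
          rw [Finset.mul_sum]
      _ ≤ Real.exp (4 * c * (k + 1)) * (C0 * Real.exp c * (G / Real.log G)) := by gcongr
      _ = (Real.exp (4 * c * (k + 1)) * (C0 * Real.exp c)) * (G / Real.log G) := by ring
      _ ≤ _ := by
          apply mul_le_mul_of_nonneg_right _ hGl.le
          have : 0 ≤ 8 * (1 + c) ^ M := by positivity
          linarith

end Pool.Agent.Lib.Sieve4
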