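import Mathlib
import Pool.Agent.Lib.Sieve4.AvgF
import Pool.Agent.Lib.Sieve4.TupleUpper

/-!
# Sums over vectors of gaps
-/

set_option autoImplicit false

open Finset Real

namespace Pool.Agent.Lib.Sieve4

/-- partial sums of a gap vector. -/
def ps {k : ℕ} (g : Fin k → ℕ) (j : Fin (k + 1)) : ℕ := ∑ l : Fin k, if l.val < j.val then g l else 0

/-- the sum of the gaps between positions `i` and `j`. -/
def seg {k : ℕ} (g : Fin k → ℕ) (i j : ℕ) : ℕ := ∑ l : Fin k, if i ≤ l.val ∧ l.val < j then g l else 0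

/-- pairs of positions. -/
def pairs (k : ℕ) : Finset (Fin (k + 1) × Fin (k + 1)) := Finset.univ.filter (fun ij => ij.1 < ij.2)

/-- the weight of a gap vector. -/
noncomputable def WW (c : ℝ) {k : ℕ} (g : Fin k → ℕ) : ℝ :=
  ∏ ij ∈ pairs k, Fc c (seg g ij.1.val ij.2.val)

lemma ps_add_seg {k : ℕ} (g : Fin k → ℕ) (i j : Fin (k + 1)) (hij : i ≤ j) :
    ps g j = ps g i + seg g i.val j.val := by
  rw [ps, ps, seg, ← Finset.sum_add_distrib]
  refine Finset.sum_congr rfl fun l _ => ?_
  have : i.val ≤ j.val := hij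
  by_cases h1 : l.val < i.val
  · rw [if_pos (by omega), if_pos h1, if_neg (by omega)]; omega
  · by_cases h2 : l.val < j.val
    · rw [if_pos h2, if_neg h1, if_pos ⟨by omega, h2⟩]; omega
    · rw [if_neg h2, if_neg h1, if_neg (by omega)]

lemma seg_pos {k : ℕ} (g : Fin k → ℕ) (hg : ∀ l, 1 ≤ g l) (i j : Fin (k + 1)) (hij : i < j) :
    1 ≤ seg g i.val j.val := by
  have h1 : i.val < j.val := hij
  have h2 : i.val < k := by have := j.2; omega
  rw [seg]
  have h3 := Finset.single_le_sum (f := fun l : Fin k => if i.val ≤ l.val ∧ l.val < j.val then g l else 0)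
    (fun _ _ => Nat.zero_le _) (mem_univ ⟨i.val, h2⟩)
  simp only [le_refl, h1, and_self, if_true] at h3
  exact (hg _).trans h3

lemma pow_one_add_le (c : ℝ) (hc : 0 ≤ c) (J : ℕ) (u : ℝ) (hu0 : 0 ≤ u) (hu1 : u ≤ 1) :
    (1 + c * u) ^ J ≤ 1 + ((1 + c) ^ J - 1) * u := by
  induction J with
  | zero => simp
  | succ J ih =>
    have hA : 0 ≤ (1 + c) ^ J - 1 := by
      have : 1 ≤ (1 + c) ^ J := one_le_pow₀ (by linarith)
      linarith
    calc (1 + c * u) ^ (J + 1) = (1 + c * u) ^ J * (1 + c * u) := pow_succ _ _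
      _ ≤ (1 + ((1 + c) ^ J - 1) * u) * (1 + c * u) := by gcongr
      _ = 1 + (((1 + c) ^ J - 1) + c) * u + ((1 + c) ^ J - 1) * c * (u * u) := by ring
      _ ≤ 1 + (((1 + c) ^ J - 1) + c) * u + ((1 + c) ^ J - 1) * c * u := by
          have h1 : u * u ≤ u := by nlinarith
          gcongr
      _ = 1 + ((1 + c) ^ (J + 1) - 1) * u := by ring

lemma Fc_pow_le (c : ℝ) (hc : 0 ≤ c) (J m : ℕ) : Fc c m ^ J ≤ Fc ((1 + c) ^ J - 1) m := by
  rw [Fc, Fc, ← Finset.prod_pow]
  refine Finset.prod_le_prod (fun p _ => by positivity) fun p hp => ?_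
  have hp1 : (1 : ℝ) ≤ p := by exact_mod_cast (Nat.prime_of_mem_primeFactors hp).one_lt.le
  have := pow_one_add_le c hc J (1 / p) (by positivity) (by rw [div_le_one (by linarith)]; exact hp1)
  calc (1 + c / (p : ℝ)) ^ J = (1 + c * (1 / p)) ^ J := by ring
    _ ≤ _ := this
    _ = _ := by ring

lemma WW_le_sum (c : ℝ) (hc : 0 ≤ c) {k : ℕ} (hk : 1 ≤ k) (g : Fin k → ℕ) :
    WW c g ≤ ∑ ij ∈ pairs k, Fc ((1 + c) ^ (pairs k).card - 1) (seg g ij.1.val ij.2.val) := by
  have hne : (pairs k).Nonempty := by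
    refine ⟨(⟨0, by omega⟩, ⟨1, by omega⟩), ?_⟩
    simp only [pairs, mem_filter, mem_univ, true_and]
    exact Fin.mk_lt_mk.2 (by omega)
  obtain ⟨ij0, hij0, hmax⟩ := Finset.exists_max_image (pairs k)
    (fun ij => Fc c (seg g ij.1.val ij.2.val)) hne
  have hnn : ∀ m, 0 ≤ Fc c m := fun m => le_trans zero_le_one (Fc_one_le c hc m)
  calc WW c g ≤ ∏ ij ∈ pairs k, Fc c (seg g ij0.1.val ij0.2.val) :=
        Finset.prod_le_prod (fun _ _ => hnn _) fun ij hij => hmax ij hij
    _ = Fc c (seg g ij0.1.val ij0.2.val) ^ (pairs k).card := by rw [Finset.prod_const]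
    _ ≤ Fc ((1 + c) ^ (pairs k).card - 1) (seg g ij0.1.val ij0.2.val) := Fc_pow_le c hc _ _
    _ ≤ _ := by
        have h1 : (0 : ℝ) ≤ (1 + c) ^ (pairs k).card - 1 := by
          have : 1 ≤ (1 + c) ^ (pairs k).card := one_le_pow₀ (by linarith)
          linarith
        exact Finset.single_le_sum (f := fun ij : Fin (k + 1) × Fin (k + 1) =>
          Fc ((1 + c) ^ (pairs k).card - 1) (seg g ij.1.val ij.2.val))
          (fun ij _ => le_trans zero_le_one (Fc_one_le _ h1 _)) hij0

/-- Sum over all gap vectors of a weight depending on `g l₀ + (stuff not depending on g l₀)`. -/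
lemma sum_vectors_le {k : ℕ} (T : Finset ℕ) (l₀ : Fin k) (Φ : ℕ → ℝ) (hΦ : ∀ m, 0 ≤ Φ m)
    (t : (Fin k → ℕ) → ℕ) (ht : ∀ g v, t (Function.update g l₀ v) = t g) (B : ℝ)
    (hB : ∀ h : Fin k → ℕ, (∀ l, h l = 0 ∨ h l ∈ T) → ∑ v ∈ T, Φ (v + t h) ≤ B) :
    ∑ g ∈ Fintype.piFinset (fun _ : Fin k => T), Φ (g l₀ + t g) ≤ (T.card : ℝ) ^ (k - 1) * B := by
  classical
  set PI := Fintype.piFinset (fun _ : Fin k => T) with hPI
  set T' := Fintype.piFinset (fun l : Fin k => if l = l₀ then ({0} : Finset ℕ) else T) with hT'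
  have hmaps : ∀ g ∈ PI, Function.update g l₀ 0 ∈ T' := by
    intro g hg
    rw [hPI, Fintype.mem_piFinset] at hg
    rw [hT', Fintype.mem_piFinset]
    intro l
    by_cases h : l = l₀
    · subst h; simp
    · rw [Function.update_of_ne h, if_neg h]; exact hg l
  rw [← Finset.sum_fiberwise_of_maps_to hmaps]
  have hcard : (T'.card : ℝ) = (T.card : ℝ) ^ (k - 1) := by
    rw [hT', Fintype.card_piFinset]
    push_cast
    have : ∀ l : Fin k, (((if l = l₀ then ({0} : Finset ℕ) else T).card : ℕ) : ℝ) =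
        if l = l₀ then 1 else (T.card : ℝ) := by
      intro l; split_ifs <;> simp
    rw [Finset.prod_congr rfl fun l _ => this l, Finset.prod_ite, Finset.prod_const, Finset.prod_const]
    have h2 : (Finset.univ.filter (fun l : Fin k => ¬ l = l₀)).card = k - 1 := by
      rw [Finset.filter_ne', Finset.card_erase_of_mem (mem_univ _), Finset.card_univ, Fintype.card_fin]
    rw [h2]; simp
  rw [← hcard, ← nsmul_eq_mul, ← Finset.sum_const]
  refine Finset.sum_le_sum fun h hh => ?_
  have hh' : ∀ l, h l = 0 ∨ h l ∈ T := by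
    intro l
    rw [hT', Fintype.mem_piFinset] at hh
    have := hh l
    by_cases hl : l = l₀
    · rw [if_pos hl, mem_singleton] at this; exact Or.inl this
    · rw [if_neg hl] at this; exact Or.inr this
  refine le_trans ?_ (hB h hh')
  have h1 : ∀ g ∈ PI.filter (fun g => Function.update g l₀ 0 = h), Φ (g l₀ + t g) = Φ (g l₀ + t h) := by
    intro g hg
    rw [mem_filter] at hg
    rw [← hg.2, ht]
  rw [Finset.sum_congr rfl h1]
  have hinj : Set.InjOn (fun g : Fin k → ℕ => g l₀)
      (PI.filter (fun g => Function.update g l₀ 0 = h) : Finset (Fin k → ℕ)) := by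
    intro g hg g' hg' heq
    simp only [coe_filter, Set.mem_ofPred_eq] at hg hg'
    simp only at heq
    funext l
    by_cases hl : l = l₀
    · rw [hl]; exact heq
    · have h2 := congrFun hg.2 l
      have h3 := congrFun hg'.2 l
      rw [Function.update_of_ne hl] at h2 h3
      rw [h2, h3]
  rw [← Finset.sum_image (f := fun v => Φ (v + t h)) hinj]
  apply Finset.sum_le_sum_of_subset_of_nonneg
  · intro v hv
    rw [mem_image] at hv
    obtain ⟨g, hg, rfl⟩ := hv
    rw [mem_filter, hPI, Fintype.mem_piFinset] at hg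
    exact hg.1 l₀
  · intro v _ _
    exact hΦ _

/-- **Sum of the weights over gap vectors.** -/
theorem sum_WW_le (c : ℝ) (hc : 0 ≤ c) (k : ℕ) (hk : 1 ≤ k) : ∃ C : ℝ, 0 < C ∧ ∀ G : ℕ, 2 ≤ G →
    ∑ g ∈ Fintype.piFinset (fun _ : Fin k => gapSet G), WW c g ≤ C * (G / Real.log G) ^ k := by
  classical
  set c' := (1 + c) ^ (pairs k).card - 1 with hc'
  have hc'0 : 0 ≤ c' := by
    have : 1 ≤ (1 + c) ^ (pairs k).card := one_le_pow₀ (by linarith)
    linarith
  obtain ⟨C1, hC1, hav⟩ := avg_Fc c' hc'0 k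
  obtain ⟨C2, hC2, hcd⟩ := avg_Fc 0 le_rfl 0
  have hcard : ∀ G : ℕ, 2 ≤ G → ((gapSet G).card : ℝ) ≤ C2 * (G / Real.log G) := by
    intro G hG
    have := hcd G 0 hG (by simp)
    simpa [Fc] using this
  refine ⟨(pairs k).card * (C2 ^ (k - 1) * C1) + 1, by positivity, ?_⟩
  intro G hG
  have hG1 : (1 : ℝ) < G := by exact_mod_cast (by omega : 1 < G)
  have hlog : 0 < Real.log G := Real.log_pos hG1
  have hGl : 0 < (G : ℝ) / Real.log G := by positivity
  calc ∑ g ∈ Fintype.piFinset (fun _ : Fin k => gapSet G), WW c g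
      ≤ ∑ g ∈ Fintype.piFinset (fun _ : Fin k => gapSet G),
        ∑ ij ∈ pairs k, Fc c' (seg g ij.1.val ij.2.val) :=
        Finset.sum_le_sum fun g _ => WW_le_sum c hc hk g
    _ = ∑ ij ∈ pairs k, ∑ g ∈ Fintype.piFinset (fun _ : Fin k => gapSet G),
        Fc c' (seg g ij.1.val ij.2.val) := Finset.sum_comm
    _ ≤ ∑ ij ∈ pairs k, ((gapSet G).card : ℝ) ^ (k - 1) * (C1 * (G / Real.log G)) := by
        refine Finset.sum_le_sum fun ij hij => ?_
        simp only [pairs, mem_filter, mem_univ, true_and] at hij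
        have hij' : ij.1.val < ij.2.val := hij
        have hik : ij.1.val < k := by have := ij.2.2; omega
        set l₀ : Fin k := ⟨ij.1.val, hik⟩ with hl₀
        set t : (Fin k → ℕ) → ℕ := fun g => seg g (ij.1.val + 1) ij.2.val with ht
        have hseg : ∀ g : Fin k → ℕ, seg g ij.1.val ij.2.val = g l₀ + t g := by
          intro g
          rw [ht]
          simp only [seg]
          rw [← Finset.add_sum_erase _ _ (mem_univ l₀)]
          congr 1
          · rw [if_pos]; exact ⟨le_rfl, hij'⟩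
          · rw [← Finset.add_sum_erase (a := l₀) Finset.univ
              (fun l : Fin k => if ij.1.val + 1 ≤ l.val ∧ l.val < ij.2.val then g l else 0) (mem_univ l₀)]
            rw [if_neg (by simp [hl₀]), zero_add]
            refine Finset.sum_congr rfl fun l hl => ?_
            rw [mem_erase] at hl
            have hne : l.val ≠ ij.1.val := fun h => hl.1 (Fin.ext h)
            by_cases h1 : ij.1.val ≤ l.val ∧ l.val < ij.2.val
            · rw [if_pos h1, if_pos ⟨by omega, h1.2⟩]
            · rw [if_neg h1, if_neg (fun h2 => h1 ⟨by omega, h2.2⟩)]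
        rw [Finset.sum_congr rfl fun g _ => by rw [hseg g]]
        apply sum_vectors_le (gapSet G) l₀ (Fc c') (fun m => le_trans zero_le_one (Fc_one_le c' hc'0 m)) t
        · intro g v
          rw [ht]
          simp only [seg]
          refine Finset.sum_congr rfl fun l _ => ?_
          by_cases h : l = l₀
          · rw [if_neg, if_neg] <;> (rw [h, hl₀]; simp)
          · rw [Function.update_of_ne h]
        · intro h hh
          apply hav G (t h) hG
          rw [ht]
          simp only [seg]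
          calc ∑ l : Fin k, (if ij.1.val + 1 ≤ l.val ∧ l.val < ij.2.val then h l else 0)
              ≤ ∑ l : Fin k, G := by
                refine Finset.sum_le_sum fun l _ => ?_
                split_ifs
                · rcases hh l with h0 | h0
                  · omega
                  · simp only [gapSet, mem_filter, mem_Icc] at h0
                    exact h0.1.2
                · exact Nat.zero_le _
            _ = k * G := by simp
    _ = (pairs k).card * (((gapSet G).card : ℝ) ^ (k - 1) * (C1 * (G / Real.log G))) := by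
        rw [Finset.sum_const, nsmul_eq_mul]
    _ ≤ (pairs k).card * ((C2 * (G / Real.log G)) ^ (k - 1) * (C1 * (G / Real.log G))) := by
        gcongr
        exact hcard G hG
    _ = (pairs k).card * (C2 ^ (k - 1) * C1) * ((G / Real.log G) ^ (k - 1) * (G / Real.log G)) := by
        rw [mul_pow]; ring
    _ = (pairs k).card * (C2 ^ (k - 1) * C1) * (G / Real.log G) ^ k := by
        rw [← pow_succ, Nat.sub_add_cancel hk]
    _ ≤ _ := by
        have : 0 ≤ ((G : ℝ) / Real.log G) ^ k := by positivity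
        nlinarith

lemma prod_biUnion_le {ι : Type*} [DecidableEq ι] (s : Finset ι) (A : ι → Finset ℕ) (f : ℕ → ℝ)
    (hf : ∀ n, 1 ≤ f n) : ∏ n ∈ s.biUnion A, f n ≤ ∏ i ∈ s, ∏ n ∈ A i, f n := by
  classical
  have hone : ∀ B : Finset ℕ, 1 ≤ ∏ n ∈ B, f n := fun B => by
    calc (1 : ℝ) = ∏ n ∈ B, (1 : ℝ) := by simp
      _ ≤ _ := Finset.prod_le_prod (fun _ _ => by norm_num) fun n _ => hf n
  induction s using Finset.induction_on with
  | empty => simp
  | insert a s ha ih =>
    rw [Finset.biUnion_insert, Finset.prod_insert ha]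
    have h1 : ∏ n ∈ A a ∪ s.biUnion A, f n ≤ (∏ n ∈ A a, f n) * ∏ n ∈ s.biUnion A, f n := by
      rw [← Finset.prod_union_inter]
      apply le_mul_of_one_le_right _ (hone _)
      exact le_trans zero_le_one (hone _)
    refine h1.trans ?_
    exact mul_le_mul_of_nonneg_left ih (le_trans zero_le_one (hone _))

lemma prod_subset_le (A B : Finset ℕ) (f : ℕ → ℝ) (hf : ∀ n, 1 ≤ f n) (hAB : A ⊆ B) :
    ∏ n ∈ A, f n ≤ ∏ n ∈ B, f n := by
  have hone : ∀ B : Finset ℕ, 1 ≤ ∏ n ∈ B, f n := fun B => by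
    calc (1 : ℝ) = ∏ n ∈ B, (1 : ℝ) := by simp
      _ ≤ _ := Finset.prod_le_prod (fun _ _ => by norm_num) fun n _ => hf n
  rw [← Finset.prod_sdiff hAB]
  exact le_mul_of_one_le_left (le_trans zero_le_one (hone _)) (hone _)

/-- upper bound of the singular series by the weight. -/
lemma S_le_WW {k : ℕ} (g : Fin k → ℕ) (hg : ∀ l, 1 ≤ g l)
    (hadm : ∀ p : ℕ, p.Prime → nu (fun j : Fin (k + 1) => (ps g j : ℤ)) p < p)
    (S : ℝ) (hS : HasProd (fun p : Nat.Primes => loc (fun j : Fin (k + 1) => (ps g j : ℤ)) p) S) :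
    S ≤ (2 ^ (k + 1)) ^ (k + 1) * WW (3 ^ (k + 1)) g := by
  classical
  set a : Fin (k + 1) → ℤ := fun j => (ps g j : ℤ) with ha
  refine le_of_tendsto hS ?_
  rw [SummationFilter.unconditional_filter, Filter.eventually_atTop]
  refine ⟨∅, fun F _ => ?_⟩
  set u : ℕ → ℝ := fun p => if p ≤ (k + 1) then 2 ^ (k + 1) else 1 with hu
  set v : ℕ → ℝ := fun p => if ∃ ij ∈ pairs k, p ∣ seg g ij.1.val ij.2.val then 1 + 3 ^ (k + 1) / (p : ℝ) else 1
    with hv
  have hloc : ∀ p ∈ F, loc a (p : ℕ) ≤ u p * v p := by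
    intro p _
    have hpp := p.2
    have hp0 : (0 : ℝ) < (p : ℕ) := by exact_mod_cast hpp.pos
    have hp2 : (2 : ℝ) ≤ (p : ℕ) := by exact_mod_cast hpp.two_le
    have hinv : (1 - 1 / ((p : ℕ) : ℝ))⁻¹ ≤ 1 + 2 / ((p : ℕ) : ℝ) := by
      have h1 : 0 < 1 - 1 / ((p : ℕ) : ℝ) := by
        have : 1 / ((p : ℕ) : ℝ) ≤ 1 / 2 := one_div_le_one_div_of_le (by norm_num) hp2
        linarith
      rw [inv_le_comm₀ h1 (by positivity), inv_eq_one_div, div_le_iff₀ (by positivity)]
      have h3 : (1 - 1 / ((p : ℕ) : ℝ)) * (1 + 2 / ((p : ℕ) : ℝ)) =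
          1 + (1 / ((p : ℕ) : ℝ)) * (1 - 2 / ((p : ℕ) : ℝ)) := by field_simp; ring
      rw [h3]
      have h4 : 0 ≤ 1 - 2 / ((p : ℕ) : ℝ) := by
        rw [sub_nonneg, div_le_one hp0]; exact hp2
      have : 0 ≤ (1 / ((p : ℕ) : ℝ)) * (1 - 2 / ((p : ℕ) : ℝ)) := by positivity
      linarith
    have hinv0 : 0 ≤ (1 - 1 / ((p : ℕ) : ℝ))⁻¹ := by
      apply inv_nonneg.2
      have : 1 / ((p : ℕ) : ℝ) ≤ 1 / 2 := one_div_le_one_div_of_le (by norm_num) hp2
      linarith
    have hlocle : loc a (p : ℕ) ≤ ((1 - 1 / ((p : ℕ) : ℝ))⁻¹) ^ (k + 1) := by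
      rw [loc]
      apply mul_le_of_le_one_left (pow_nonneg hinv0 _)
      have : 0 ≤ (nu a (p : ℕ) : ℝ) / ((p : ℕ) : ℝ) := by positivity
      linarith
    have hv1 : 1 ≤ v p := by
      rw [hv]; simp only
      split_ifs
      · have : 0 ≤ (3 : ℝ) ^ (k + 1) / ((p : ℕ) : ℝ) := by positivity
        linarith
      · exact le_rfl
    have hu1 : 1 ≤ u p := by
      rw [hu]; simp only
      split_ifs
      · exact one_le_pow₀ (by norm_num)
      · exact le_rfl
    by_cases h1 : (p : ℕ) ≤ (k + 1)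
    · have h2 : u p = 2 ^ (k + 1) := by rw [hu]; simp only; rw [if_pos h1]
      rw [h2]
      calc loc a (p : ℕ) ≤ ((1 - 1 / ((p : ℕ) : ℝ))⁻¹) ^ (k + 1) := hlocle
        _ ≤ 2 ^ (k + 1) := by
            apply pow_le_pow_left₀ hinv0
            refine hinv.trans ?_
            have : 2 / ((p : ℕ) : ℝ) ≤ 1 := by rw [div_le_one hp0]; exact hp2
            linarith
        _ ≤ 2 ^ (k + 1) * v p := le_mul_of_one_le_right (by positivity) hv1
    · by_cases h3 : ∃ ij ∈ pairs k, (p : ℕ) ∣ seg g ij.1.val ij.2.val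
      · have h4 : v p = 1 + 3 ^ (k + 1) / ((p : ℕ) : ℝ) := by rw [hv]; simp only; rw [if_pos h3]
        calc loc a (p : ℕ) ≤ ((1 - 1 / ((p : ℕ) : ℝ))⁻¹) ^ (k + 1) := hlocle
          _ ≤ (1 + 2 / ((p : ℕ) : ℝ)) ^ (k + 1) := pow_le_pow_left₀ hinv0 hinv (k + 1)
          _ = (1 + 2 * (1 / ((p : ℕ) : ℝ))) ^ (k + 1) := by ring
          _ ≤ 1 + ((1 + 2) ^ (k + 1) - 1) * (1 / ((p : ℕ) : ℝ)) := by
              apply pow_one_add_le 2 (by norm_num) (k + 1) _ (by positivity)
              rw [div_le_one hp0]; linarith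
          _ ≤ 1 + 3 ^ (k + 1) / ((p : ℕ) : ℝ) := by
              rw [show (1 : ℝ) + 2 = 3 by norm_num]
              have : 0 ≤ 1 / ((p : ℕ) : ℝ) := by positivity
              have h5 : (3 : ℝ) ^ (k + 1) / ((p : ℕ) : ℝ) = 3 ^ (k + 1) * (1 / ((p : ℕ) : ℝ)) := by ring
              rw [h5]
              nlinarith
          _ = v p := h4.symm
          _ ≤ u p * v p := le_mul_of_one_le_left (le_trans zero_le_one hv1) hu1
      · have hnu : nu a (p : ℕ) = (k + 1) := by
          apply nu_eq
          intro i j hij hdvd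
          apply h3
          rcases lt_or_gt_of_ne hij with hlt | hlt
          · refine ⟨(i, j), by simp [pairs, hlt], ?_⟩
            have h6 := ps_add_seg g i j hlt.le
            have h7 : a i - a j = -((seg g i.val j.val : ℕ) : ℤ) := by
              rw [ha]; simp only; rw [h6]; push_cast; ring
            rw [h7, dvd_neg] at hdvd
            exact_mod_cast hdvd
          · refine ⟨(j, i), by simp [pairs, hlt], ?_⟩
            have h6 := ps_add_seg g j i hlt.le
            have h7 : a i - a j = ((seg g j.val i.val : ℕ) : ℤ) := by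
              rw [ha]; simp only; rw [h6]; push_cast; ring
            rw [h7] at hdvd
            exact_mod_cast hdvd
        calc loc a (p : ℕ) ≤ 1 := loc_le_one a p hpp hnu (by omega)
          _ ≤ v p := hv1
          _ ≤ u p * v p := le_mul_of_one_le_left (le_trans zero_le_one hv1) hu1
  have hnonneg : ∀ p ∈ F, 0 ≤ loc a (p : ℕ) := fun p _ => (loc_pos a p p.2 (hadm p p.2)).le
  set F' : Finset ℕ := F.map ⟨fun p : Nat.Primes => (p : ℕ), Nat.Primes.coe_nat_injective⟩ with hF'
  have hF'p : ∀ p ∈ F', p.Prime := by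
    intro p hp
    rw [hF'] at hp
    simp only [Finset.mem_map] at hp
    obtain ⟨q, _, rfl⟩ := hp
    exact q.2
  calc ∏ p ∈ F, loc a (p : ℕ) ≤ ∏ p ∈ F, (u p * v p) := Finset.prod_le_prod hnonneg hloc
    _ = (∏ p ∈ F', u p) * ∏ p ∈ F', v p := by
        rw [Finset.prod_mul_distrib, hF', Finset.prod_map, Finset.prod_map]
        rfl
    _ ≤ (2 ^ (k + 1)) ^ (k + 1) * WW (3 ^ (k + 1)) g := by
        apply mul_le_mul
        · -- small primes
          rw [hu, Finset.prod_ite, Finset.prod_const, Finset.prod_const_one, mul_one]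
          apply pow_le_pow_right₀ (one_le_pow₀ (by norm_num))
          have : F'.filter (fun p => p ≤ (k + 1)) ⊆ Icc 1 (k + 1) := by
            intro p hp
            simp only [mem_filter] at hp
            rw [mem_Icc]
            exact ⟨(hF'p p hp.1).one_lt.le, hp.2⟩
          simpa using Finset.card_le_card this
        · rw [hv, Finset.prod_ite, Finset.prod_const_one, mul_one]
          have hf : ∀ n : ℕ, (1 : ℝ) ≤ 1 + 3 ^ (k + 1) / (n : ℝ) := fun n => by
            have : 0 ≤ (3 : ℝ) ^ (k + 1) / (n : ℝ) := by positivity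
            linarith
          calc ∏ x ∈ F'.filter (fun p => ∃ ij ∈ pairs k, p ∣ seg g ij.1.val ij.2.val), (1 + 3 ^ (k + 1) / (x : ℝ))
              ≤ ∏ x ∈ (pairs k).biUnion (fun ij => (seg g ij.1.val ij.2.val).primeFactors),
                (1 + 3 ^ (k + 1) / (x : ℝ)) := by
                apply prod_subset_le _ _ _ hf
                intro p hp
                simp only [mem_filter] at hp
                obtain ⟨hp1, ij, hij, hdvd⟩ := hp
                rw [mem_biUnion]
                refine ⟨ij, hij, ?_⟩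
                rw [Nat.mem_primeFactors]
                refine ⟨hF'p p hp1, hdvd, ?_⟩
                simp only [pairs, mem_filter, mem_univ, true_and] at hij
                have := seg_pos g hg ij.1 ij.2 hij
                omega
            _ ≤ ∏ ij ∈ pairs k, ∏ x ∈ (seg g ij.1.val ij.2.val).primeFactors, (1 + 3 ^ (k + 1) / (x : ℝ)) :=
                prod_biUnion_le _ _ _ hf
            _ = WW (3 ^ (k + 1)) g := rfl
        · refine Finset.prod_nonneg fun p _ => ?_
          rw [hv]; simp only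
          split_ifs
          · positivity
          · norm_num
        · positivity

/-- **Lemma W**: the number of `n ≤ x` with `n + ps g j` prime for all `j`. -/
theorem count_le_WW (k : ℕ) : ∃ K : ℝ, 0 < K ∧ ∀ g : Fin k → ℕ, (∀ l, 1 ≤ g l) → ∀ x : ℕ, 2 ≤ x →
    (((Icc 1 x).filter (fun n : ℕ => ∀ j : Fin (k + 1), Nat.Prime (n + ps g j))).card : ℝ) ≤
      K * WW (3 ^ (k + 1)) g * (x / Real.log x ^ (k + 1)) + (k + 1) := by
  classical
  obtain ⟨K, hK, hU⟩ := tuple_upper (k + 1) (by omega)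
  refine ⟨K * (2 ^ (k + 1)) ^ (k + 1), by positivity, ?_⟩
  intro g hg x hx
  set a : Fin (k + 1) → ℤ := fun j => (ps g j : ℤ) with ha
  have hx1 : (1 : ℝ) < x := by exact_mod_cast (by omega : 1 < x)
  have hlog : 0 < Real.log x := Real.log_pos hx1
  have hx0 : (0 : ℝ) < x := by linarith
  have hWW1 : 0 ≤ WW (3 ^ (k + 1)) g := Finset.prod_nonneg fun _ _ =>
    le_trans zero_le_one (Fc_one_le _ (by positivity) _)
  have hfil : (Icc 1 x).filter (fun n : ℕ => ∀ j : Fin (k + 1), Nat.Prime (n + ps g j)) =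
      (Icc 1 x).filter (fun n : ℕ => ∀ i, Nat.Prime ((n : ℤ) + a i).toNat) := by
    refine Finset.filter_congr fun n _ => ?_
    refine forall_congr' fun j => ?_
    have : ((n : ℤ) + a j).toNat = n + ps g j := by
      rw [ha]; simp only
      rw [← Nat.cast_add, Int.toNat_natCast]
    rw [this]
  by_cases hadm : ∀ p : ℕ, p.Prime → nu a p < p
  · have hinj : Function.Injective a := by
      intro i j hij
      by_contra hne
      rcases lt_or_gt_of_ne hne with hlt | hlt
      · have h6 := ps_add_seg g i j hlt.le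
        have h7 := seg_pos g hg i j hlt
        have h8 : (ps g i : ℤ) = (ps g j : ℤ) := hij
        have h9 : ps g i = ps g j := by exact_mod_cast h8
        omega
      · have h6 := ps_add_seg g j i hlt.le
        have h7 := seg_pos g hg j i hlt
        have h8 : (ps g i : ℤ) = (ps g j : ℤ) := hij
        have h9 : ps g i = ps g j := by exact_mod_cast h8
        omega
    obtain ⟨S, hS⟩ := multipliable_loc a hinj
    have h1 := hU a hadm S hS x hx
    have h2 := S_le_WW g hg hadm S hS
    rw [hfil]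
    refine h1.trans ?_
    calc K * S * x / Real.log x ^ (k + 1) ≤
          K * ((2 ^ (k + 1)) ^ (k + 1) * WW (3 ^ (k + 1)) g) * x / Real.log x ^ (k + 1) := by gcongr
      _ = K * (2 ^ (k + 1)) ^ (k + 1) * WW (3 ^ (k + 1)) g * (x / Real.log x ^ (k + 1)) := by ring
      _ ≤ _ := by
          have : (0 : ℝ) ≤ (k : ℝ) + 1 := by positivity
          linarith
  · push Not at hadm
    obtain ⟨p, hp, hnu⟩ := hadm
    have hpk : p ≤ k + 1 := hnu.trans (nu_le a p)
    have hsub : (Icc 1 x).filter (fun n : ℕ => ∀ j : Fin (k + 1), Nat.Prime (n + ps g j)) ⊆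
        Icc 1 (k + 1) := by
      intro n hn
      simp only [mem_filter, mem_Icc] at hn ⊢
      refine ⟨hn.1.1, ?_⟩
      -- all residue classes are covered
      have : NeZero p := ⟨hp.ne_zero⟩
      have hall : Finset.univ.image (fun i => ((a i : ℤ) : ZMod p)) = Finset.univ := by
        apply Finset.eq_univ_of_card
        rw [ZMod.card]
        apply le_antisymm
        · have := Finset.card_le_univ (Finset.univ.image (fun i => ((a i : ℤ) : ZMod p)))
          rwa [ZMod.card] at this
        · exact hnu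
      have hmem : (-(n : ZMod p)) ∈ Finset.univ.image (fun i => ((a i : ℤ) : ZMod p)) := by
        rw [hall]; exact mem_univ _
      rw [mem_image] at hmem
      obtain ⟨i, _, hi⟩ := hmem
      have hdvd : p ∣ n + ps g i := by
        rw [← ZMod.natCast_eq_zero_iff]
        push_cast
        have h5 : ((ps g i : ℕ) : ZMod p) = -(n : ZMod p) := by
          rw [← hi, ha]; simp
        rw [h5]; ring
      rcases (Nat.dvd_prime (hn.2 i)).1 hdvd with h | h
      · exact absurd h hp.one_lt.ne'
      · omega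
    have hcard := Finset.card_le_card hsub
    simp only [Nat.card_Icc, Nat.add_sub_cancel] at hcard
    have hcard' : (((Icc 1 x).filter (fun n : ℕ => ∀ j : Fin (k + 1), Nat.Prime (n + ps g j))).card : ℝ) ≤
        (k + 1 : ℕ) := by exact_mod_cast hcard
    push_cast at hcard'
    have : 0 ≤ K * (2 ^ (k + 1)) ^ (k + 1) * WW (3 ^ (k + 1)) g * (x / Real.log x ^ (k + 1)) := by
      positivity
    linarith

end Pool.Agent.Lib.Sieve4
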