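import Mathlib
import Pool.Agent.Lib.Sieve4.GapVectors

/-!
# Increasing sequences of primes all of whose gaps are shifted primes
-/

set_option autoImplicit false

open Finset Real

namespace Pool.Agent.Lib.Sieve4

lemma sum_gaps_le (f : ℕ → ℕ) (hf : Monotone f) (A : Finset ℕ) (N : ℕ) (hA : A ⊆ range N) :
    ∑ n ∈ A, (f (n + 1) - f n) ≤ f N := by
  calc ∑ n ∈ A, (f (n + 1) - f n) ≤ ∑ n ∈ range N, (f (n + 1) - f n) :=
        Finset.sum_le_sum_of_subset hA
    _ = f N - f 0 := Finset.sum_range_tsub hf N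
    _ ≤ f N := Nat.sub_le _ _

/-- The count of a chain of primes up to `x` whose gaps `g` have `g + 1` prime. -/
theorem chain_count (k : ℕ) (hk : 1 ≤ k) : ∃ C : ℝ, 0 < C ∧
    ∀ q : ℕ → ℕ, StrictMono q → (∀ n, (q n).Prime) →
    ∀ n₀ : ℕ, (∀ n, n₀ ≤ n → (q (n + 1) - q n + 1).Prime) →
    ∀ x G : ℕ, 2 ≤ x → 2 ≤ G →
      ({n : ℕ | q n ≤ x}.ncard : ℝ) ≤ n₀ + k + k * (x / G : ℝ) +
        C * ((x / Real.log x ^ (k + 1)) * (G / Real.log G) ^ k) + (k + 1) * (G : ℝ) ^ k := by
  classical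
  obtain ⟨K, hK, hW⟩ := count_le_WW k
  obtain ⟨C1, hC1, hsum⟩ := sum_WW_le (3 ^ (k + 1)) (by positivity) k hk
  refine ⟨K * C1, by positivity, ?_⟩
  intro q hq hprime n₀ hgap x G hx hG
  have hx1 : (1 : ℝ) < x := by exact_mod_cast (by omega : 1 < x)
  have hx0 : (0 : ℝ) < x := by linarith
  have hlog : 0 < Real.log x := Real.log_pos hx1
  have hG0 : (0 : ℝ) < G := by exact_mod_cast (by omega : 0 < G)
  -- M = first index beyond x
  have hex : ∃ n, x < q n := ⟨x + 1, lt_of_lt_of_le (Nat.lt_succ_self x) (hq.le_apply)⟩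
  set M := Nat.find hex with hM
  have hMspec : x < q M := Nat.find_spec hex
  have hMmin : ∀ n, n < M → q n ≤ x := fun n hn => not_lt.1 (Nat.find_min hex hn)
  have hset : {n : ℕ | q n ≤ x} = ((range M : Finset ℕ) : Set ℕ) := by
    ext n
    simp only [Set.mem_ofPred_eq, coe_range, Set.mem_Iio]
    constructor
    · intro h
      by_contra hcon
      push Not at hcon
      have := hq.monotone hcon
      omega
    · exact hMmin n
  have hncard : ({n : ℕ | q n ≤ x}.ncard) = M := by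
    rw [hset, Set.ncard_coe_finset, card_range]
  rw [hncard]
  set A := Ico n₀ (M - k) with hA
  have hMA : M ≤ n₀ + k + A.card := by
    rw [hA, Nat.card_Ico]; omega
  set B := A.filter (fun n => ∀ j, j < k → q (n + j + 1) - q (n + j) ≤ G) with hB
  have hsplit : A.card ≤ (∑ j ∈ range k, (A.filter (fun n => G < q (n + j + 1) - q (n + j))).card) + B.card := by
    have hsub : A ⊆ ((range k).biUnion (fun j => A.filter (fun n => G < q (n + j + 1) - q (n + j)))) ∪ B := by
      intro n hn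
      by_cases h : ∀ j, j < k → q (n + j + 1) - q (n + j) ≤ G
      · exact mem_union_right _ (mem_filter.2 ⟨hn, h⟩)
      · push Not at h
        obtain ⟨j, hj, hj'⟩ := h
        exact mem_union_left _ (mem_biUnion.2 ⟨j, mem_range.2 hj, mem_filter.2 ⟨hn, hj'⟩⟩)
    calc A.card ≤ _ := Finset.card_le_card hsub
      _ ≤ _ := Finset.card_union_le _ _
      _ ≤ _ := Nat.add_le_add_right Finset.card_biUnion_le _
  have hbad : ∀ j ∈ range k, ((A.filter (fun n => G < q (n + j + 1) - q (n + j))).card : ℝ) ≤ x / G := by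
    intro j hj
    rw [mem_range] at hj
    set T := A.filter (fun n => G < q (n + j + 1) - q (n + j)) with hT
    rw [le_div_iff₀ hG0]
    rcases T.eq_empty_or_nonempty with hTe | ⟨n1, hn1⟩
    · rw [hTe]; simp
    · have hn1' : n1 < M - k := by
        simp only [hT, hA, mem_filter, mem_Ico] at hn1; exact hn1.1.2
      have h1 : T.card * G ≤ x := by
        calc T.card * G = ∑ n ∈ T, G := by rw [Finset.sum_const, smul_eq_mul]
          _ ≤ ∑ n ∈ T, (q (n + 1 + j) - q (n + j)) := by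
              refine Finset.sum_le_sum fun n hn => ?_
              simp only [hT, mem_filter] at hn
              rw [show n + 1 + j = n + j + 1 by ring]
              exact hn.2.le
          _ ≤ q (M - k + j) := by
              apply sum_gaps_le (fun n => q (n + j)) (fun a b h => hq.monotone (by omega)) T (M - k)
              intro n hn
              simp only [hT, hA, mem_filter, mem_Ico] at hn
              rw [mem_range]; exact hn.1.2
          _ ≤ x := hMmin _ (by omega)
      exact_mod_cast h1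
  -- the good part
  set PI := Fintype.piFinset (fun _ : Fin k => gapSet G) with hPI
  set gv : ℕ → (Fin k → ℕ) := fun n l => q (n + l.val + 1) - q (n + l.val) with hgv
  have hmaps : ∀ n ∈ B, gv n ∈ PI := by
    intro n hn
    simp only [hB, hA, mem_filter, mem_Ico] at hn
    rw [hPI, Fintype.mem_piFinset]
    intro l
    simp only [gapSet, mem_filter, mem_Icc, hgv]
    have h1 := hq (Nat.lt_succ_self (n + l.val))
    simp only [Nat.succ_eq_add_one] at h1
    exact ⟨⟨by omega, hn.2 l.val l.2⟩, hgap _ (by omega)⟩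
  have hps : ∀ n, ∀ j : Fin (k + 1), q n + ps (gv n) j = q (n + j.val) := by
    intro n j
    have h1 : ps (gv n) j = q (n + j.val) - q n := by
      rw [ps]
      simp only [hgv]
      rw [Fin.sum_univ_eq_sum_range (fun l => if l < j.val then q (n + l + 1) - q (n + l) else 0) k,
        ← Finset.sum_filter]
      have h2 : (range k).filter (fun l => l < j.val) = range j.val := by
        ext l; simp only [mem_filter, mem_range]
        have := j.2; omega
      rw [h2]
      have h3 := Finset.sum_range_tsub (f := fun l => q (n + l))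
        (fun a b h => hq.monotone (Nat.add_le_add_left h n)) j.val
      simp only [Nat.add_zero] at h3
      rw [← h3]
      rfl
    rw [h1]
    have := hq.monotone (Nat.le_add_right n j.val)
    omega
  have hBcard : (B.card : ℝ) ≤ ∑ g ∈ PI,
      (((Icc 1 x).filter (fun n : ℕ => ∀ j : Fin (k + 1), Nat.Prime (n + ps g j))).card : ℝ) := by
    have h1 : B.card = ∑ g ∈ PI, (B.filter (fun n => gv n = g)).card :=
      Finset.card_eq_sum_card_fiberwise hmaps
    have h2 : B.card ≤ ∑ g ∈ PI,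
        ((Icc 1 x).filter (fun n : ℕ => ∀ j : Fin (k + 1), Nat.Prime (n + ps g j))).card := by
      rw [h1]
      refine Finset.sum_le_sum fun g _ => ?_
      refine Finset.card_le_card_of_injOn q ?_ (fun a _ b _ h => hq.injective h)
      intro n hn
      simp only [hB, hA, coe_filter, mem_filter, mem_Ico, Set.mem_ofPred_eq] at hn
      obtain ⟨⟨⟨hn1, hn2⟩, -⟩, rfl⟩ := hn
      simp only [coe_filter, mem_Icc, Set.mem_ofPred_eq]
      refine ⟨⟨(hprime n).one_lt.le, hMmin n (by omega)⟩, fun j => ?_⟩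
      rw [hps]
      exact hprime _
    exact_mod_cast h2
  have hPIcard : (PI.card : ℝ) ≤ (G : ℝ) ^ k := by
    rw [hPI, Fintype.card_piFinset]
    simp only [Finset.prod_const, Finset.card_univ, Fintype.card_fin]
    push_cast
    apply pow_le_pow_left₀ (Nat.cast_nonneg _)
    have : (gapSet G).card ≤ (Icc 1 G).card := Finset.card_le_card (Finset.filter_subset _ _)
    simp only [Nat.card_Icc, Nat.add_sub_cancel] at this
    exact_mod_cast this
  have hgood : (B.card : ℝ) ≤ K * C1 * ((x / Real.log x ^ (k + 1)) * (G / Real.log G) ^ k) +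
      (k + 1) * (G : ℝ) ^ k := by
    refine hBcard.trans ?_
    calc _ ≤ ∑ g ∈ PI, (K * WW (3 ^ (k + 1)) g * (x / Real.log x ^ (k + 1)) + (k + 1)) := by
          refine Finset.sum_le_sum fun g hg => ?_
          refine hW g (fun l => ?_) x hx
          rw [hPI, Fintype.mem_piFinset] at hg
          have := hg l
          simp only [gapSet, mem_filter, mem_Icc] at this
          exact this.1.1
      _ = K * (x / Real.log x ^ (k + 1)) * (∑ g ∈ PI, WW (3 ^ (k + 1)) g) + PI.card * (k + 1) := by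
          rw [Finset.sum_add_distrib, Finset.sum_const, nsmul_eq_mul, Finset.mul_sum]
          congr 1
          exact Finset.sum_congr rfl fun g _ => by ring
      _ ≤ K * (x / Real.log x ^ (k + 1)) * (C1 * (G / Real.log G) ^ k) + (G : ℝ) ^ k * (k + 1) := by
          have h1 := hsum G hG
          gcongr
      _ = _ := by ring
  have hfinal : (M : ℝ) ≤ n₀ + k + ((∑ j ∈ range k, (x / G : ℝ)) + B.card) := by
    have h1 : (M : ℝ) ≤ n₀ + k + A.card := by exact_mod_cast hMA
    have h2 : (A.card : ℝ) ≤ (∑ j ∈ range k, ((A.filter (fun n => G < q (n + j + 1) - q (n + j))).card : ℝ)) +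
        B.card := by exact_mod_cast hsplit
    have h3 := Finset.sum_le_sum hbad
    linarith
  rw [Finset.sum_const, card_range, nsmul_eq_mul] at hfinal
  linarith

/-- **Density of prime chains.** For every `θ < 1` there is `C` such that every increasing sequence
of primes, all of whose gaps from some point on are shifted primes, has at most
`C x / (log x (log log x)^θ)` terms up to `x`, for `x` large. -/
theorem chain_density (θ : ℝ) (hθ : θ < 1) : ∃ C : ℝ, 0 < C ∧
    ∀ q : ℕ → ℕ, StrictMono q → (∀ n, (q n).Prime) →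
    ∀ n₀ : ℕ, (∀ n, n₀ ≤ n → (q (n + 1) - q n + 1).Prime) →
    ∀ᶠ x : ℕ in Filter.atTop,
      ({n : ℕ | q n ≤ x}.ncard : ℝ) ≤ C * (x / (Real.log x * Real.log (Real.log x) ^ θ)) := by
  -- choose k
  obtain ⟨k, hk1, hkθ⟩ : ∃ k : ℕ, 1 ≤ k ∧ θ ≤ (k : ℝ) / (k + 1) := by
    obtain ⟨k, hk⟩ := exists_nat_ge (1 / (1 - θ))
    refine ⟨k + 1, by omega, ?_⟩
    have h1 : 0 < 1 - θ := by linarith
    push_cast
    rw [div_le_iff₀ h1] at hk
    rw [le_div_iff₀ (by positivity)]
    nlinarith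
  obtain ⟨C, hC, hcount⟩ := chain_count k hk1
  refine ⟨k + 2 ^ k * C + 1, by positivity, ?_⟩
  intro q hq hprime n₀ hgap
  set β : ℝ := (k : ℝ) / (k + 1) with hβ
  have hβ0 : 0 < β := by rw [hβ]; positivity
  have hβ1 : β ≤ 1 := by
    rw [hβ, div_le_one (by positivity)]; linarith
  have hβk : (1 - β) * k = β := by
    rw [hβ]; field_simp; ring
  -- eventually conditions
  have hlogT : Filter.Tendsto (fun x : ℕ => Real.log x) Filter.atTop Filter.atTop :=
    Real.tendsto_log_atTop.comp tendsto_natCast_atTop_atTop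
  have hloglogT : Filter.Tendsto (fun x : ℕ => Real.log (Real.log x)) Filter.atTop Filter.atTop :=
    Real.tendsto_log_atTop.comp hlogT
  have hsmall : ∀ᶠ x : ℕ in Filter.atTop,
      ((n₀ : ℝ) + k + (k + 1) * 2 ^ k) * Real.log x ^ (2 * k + 2) ≤ x := by
    have h1 := (isLittleO_pow_log_id_atTop (n := 2 * k + 2)).comp_tendsto
      (tendsto_natCast_atTop_atTop (R := ℝ))
    have hc : 0 < 1 / ((n₀ : ℝ) + k + (k + 1) * 2 ^ k) := by positivity
    have h2 := h1.bound hc
    filter_upwards [h2, Filter.eventually_ge_atTop 1] with x hx hx1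
    simp only [Function.comp_apply, id_eq] at hx
    have hx1' : (1 : ℝ) ≤ x := by exact_mod_cast hx1
    rw [Real.norm_eq_abs, Real.norm_eq_abs, abs_of_nonneg (pow_nonneg (Real.log_nonneg hx1') _),
      abs_of_nonneg (by linarith), one_div, inv_mul_eq_div, le_div_iff₀ (by positivity)] at hx
    linarith
  filter_upwards [hsmall, hloglogT.eventually_ge_atTop 1, hlogT.eventually_ge_atTop 2,
    Filter.eventually_ge_atTop 2] with x hxs hll hl hx2
  set ℓ := Real.log x with hℓ
  set lam := Real.log ℓ with hlam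
  have hℓ0 : 0 < ℓ := by linarith
  have hlamβ1 : 1 ≤ lam ^ β := Real.one_le_rpow hll hβ0.le
  have hlamβ0 : 0 < lam ^ β := by linarith
  have hlamℓ : lam ≤ ℓ := by
    have := Real.log_le_sub_one_of_pos hℓ0
    linarith
  have hlamβℓ : lam ^ β ≤ ℓ := by
    calc lam ^ β ≤ lam ^ (1 : ℝ) := Real.rpow_le_rpow_of_exponent_le hll hβ1
      _ = lam := Real.rpow_one _
      _ ≤ ℓ := hlamℓ
  set G : ℕ := ⌈ℓ * lam ^ β⌉₊ with hG
  have hGge : ℓ * lam ^ β ≤ G := Nat.le_ceil _
  have hGle : (G : ℝ) ≤ 2 * (ℓ * lam ^ β) := by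
    have h1 : (G : ℝ) < ℓ * lam ^ β + 1 := Nat.ceil_lt_add_one (by positivity)
    have h2 : 1 ≤ ℓ * lam ^ β := by nlinarith
    linarith
  have hG2 : 2 ≤ G := by
    have h1 : (2 : ℝ) ≤ G := by nlinarith
    exact_mod_cast h1
  have hG0 : (0 : ℝ) < G := by exact_mod_cast (by omega : 0 < G)
  have hlogG : lam ≤ Real.log G := by
    apply Real.log_le_log hℓ0
    nlinarith
  have hlam0 : 0 < lam := by linarith
  have hx0 : (0 : ℝ) < x := by exact_mod_cast (by omega : 0 < x)
  have hmain := hcount q hq hprime n₀ hgap x G hx2 hG2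
  -- terms
  have hD0 : 0 < ℓ * lam ^ β := by positivity
  have hT1 : (x : ℝ) / G ≤ x / (ℓ * lam ^ β) := by gcongr
  have hT2 : (x / ℓ ^ (k + 1)) * (G / Real.log G) ^ k ≤ 2 ^ k * (x / (ℓ * lam ^ β)) := by
    have h1 : (G : ℝ) / Real.log G ≤ 2 * (ℓ * lam ^ β) / lam := by gcongr
    have h2 : 0 ≤ (G : ℝ) / Real.log G := by
      have : 0 ≤ Real.log G := by linarith
      positivity
    have h3 : ((G : ℝ) / Real.log G) ^ k ≤ (2 * (ℓ * lam ^ β) / lam) ^ k :=
      pow_le_pow_left₀ h2 h1 k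
    have h4 : (2 * (ℓ * lam ^ β) / lam) ^ k = 2 ^ k * ℓ ^ k / lam ^ β := by
      have h5 : 2 * (ℓ * lam ^ β) / lam = 2 * ℓ * (lam ^ (β - 1)) := by
        rw [Real.rpow_sub_one hlam0.ne']; ring
      rw [h5, mul_pow, mul_pow, ← Real.rpow_natCast (lam ^ (β - 1)) k, ← Real.rpow_mul hlam0.le]
      have h6 : (β - 1) * (k : ℝ) = -β := by linarith
      rw [h6, Real.rpow_neg hlam0.le]
      rfl
    calc (x / ℓ ^ (k + 1)) * (G / Real.log G) ^ k ≤ (x / ℓ ^ (k + 1)) * (2 ^ k * ℓ ^ k / lam ^ β) := by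
          rw [← h4]; gcongr
      _ = 2 ^ k * (x / (ℓ * lam ^ β)) := by
          rw [pow_succ]; field_simp
  have hT3 : (n₀ : ℝ) + k + (k + 1) * (G : ℝ) ^ k ≤ x / (ℓ * lam ^ β) := by
    rw [le_div_iff₀ hD0]
    have h1 : (G : ℝ) ≤ 2 * ℓ ^ 2 := by nlinarith
    have h2 : (G : ℝ) ^ k ≤ 2 ^ k * ℓ ^ (2 * k) := by
      calc (G : ℝ) ^ k ≤ (2 * ℓ ^ 2) ^ k := pow_le_pow_left₀ hG0.le h1 k
        _ = 2 ^ k * ℓ ^ (2 * k) := by rw [mul_pow, ← pow_mul]
    have h3 : (1 : ℝ) ≤ ℓ ^ (2 * k) := one_le_pow₀ (by linarith)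
    calc ((n₀ : ℝ) + k + (k + 1) * (G : ℝ) ^ k) * (ℓ * lam ^ β)
        ≤ ((n₀ : ℝ) * ℓ ^ (2 * k) + k * ℓ ^ (2 * k) + (k + 1) * (2 ^ k * ℓ ^ (2 * k))) * (ℓ * ℓ) := by
          gcongr
          · nlinarith [(Nat.cast_nonneg n₀ : (0 : ℝ) ≤ n₀)]
          · nlinarith [(Nat.cast_nonneg k : (0 : ℝ) ≤ k)]
      _ = ((n₀ : ℝ) + k + (k + 1) * 2 ^ k) * ℓ ^ (2 * k + 2) := by ring
      _ ≤ x := hxs
  calc ({n : ℕ | q n ≤ x}.ncard : ℝ) ≤ n₀ + k + k * (x / G : ℝ) +
        C * ((x / ℓ ^ (k + 1)) * (G / Real.log G) ^ k) + (k + 1) * (G : ℝ) ^ k := hmain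
    _ ≤ k * (x / (ℓ * lam ^ β)) + C * (2 ^ k * (x / (ℓ * lam ^ β))) + x / (ℓ * lam ^ β) := by
        have h1 : (k : ℝ) * (x / G) ≤ k * (x / (ℓ * lam ^ β)) := by gcongr
        have h2 := mul_le_mul_of_nonneg_left hT2 hC.le
        linarith
    _ = (k + 2 ^ k * C + 1) * (x / (ℓ * lam ^ β)) := by ring
    _ ≤ (k + 2 ^ k * C + 1) * (x / (ℓ * lam ^ θ)) := by
        have h1 : lam ^ θ ≤ lam ^ β := Real.rpow_le_rpow_of_exponent_le hll hkθ
        have h2 : 0 < lam ^ θ := Real.rpow_pos_of_pos hlam0 _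
        gcongr

end Pool.Agent.Lib.Sieve4
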